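import Mathlib
import Pool.Graph.R_pool_sql_team_seeded_3997aac3.Q89.SM.I
import Pool.Graph.R_pool_sql_team_seeded_64922ed1.X146.RP.W
set_option autoImplicit false

/-! Mollification in a group of the variables. -/

namespace Pool.Agent.Helper25.PV

open MeasureTheory Set Complex Filter Topology
open scoped ENNReal NNReal
open Pool.Agent.Y183.LS (BA ec ec_enorm ec_norm em_nrm em_enrm enorm_prd BA_fin lint_smul)
open Pool.Agent.Q89.SM
open Pool.Agent.Q89.LF (Aw)
open Pool.Agent.X146.RP (gs gs_inl gs_inr gs_mp sum_gs)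

variable {m k n : ℕ}

lemma ext_gs (e : Fin m ⊕ Fin k ≃ Fin n) {x y : Fin n → ℝ}
    (h1 : ∀ i, x (e (Sum.inl i)) = y (e (Sum.inl i)))
    (h2 : ∀ i, x (e (Sum.inr i)) = y (e (Sum.inr i))) : x = y := by
  funext j
  obtain ⟨s, rfl⟩ := e.surjective j
  rcases s with i | i
  · exact h1 i
  · exact h2 i

lemma gs_sub (e : Fin m ⊕ Fin k ≃ Fin n) (p p' : (Fin m → ℝ) × (Fin k → ℝ)) :
    gs e (p - p') = gs e p - gs e p' := by
  apply ext_gs e
  · intro i
    simp only [Pi.sub_apply, gs_inl, Prod.fst_sub]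
  · intro i
    simp only [Pi.sub_apply, gs_inr, Prod.snd_sub]

lemma gs_add (e : Fin m ⊕ Fin k ≃ Fin n) (p p' : (Fin m → ℝ) × (Fin k → ℝ)) :
    gs e (p + p') = gs e p + gs e p' := by
  apply ext_gs e
  · intro i
    simp only [Pi.add_apply, gs_inl, Prod.fst_add]
  · intro i
    simp only [Pi.add_apply, gs_inr, Prod.snd_add]

lemma gs_fst (e : Fin m ⊕ Fin k ≃ Fin n) (y : Fin n → ℝ) :
    gs e (fun i => y (e (Sum.inl i)), fun i => y (e (Sum.inr i))) = y := by
  apply ext_gs e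
  · intro i
    rw [gs_inl]
  · intro i
    rw [gs_inr]

lemma gs_BA (e : Fin m ⊕ Fin k ≃ Fin n) (b : ℝ) (p : (Fin m → ℝ) × (Fin k → ℝ)) :
    gs e p ∈ BA b n ↔ p.1 ∈ BA b m ∧ p.2 ∈ BA b k := by
  constructor
  · intro h
    refine ⟨⟨fun i => ?_, fun i => ?_⟩, ⟨fun i => ?_, fun i => ?_⟩⟩
    · have := h.1 (e (Sum.inl i))
      rwa [gs_inl] at this
    · have := h.2 (e (Sum.inl i))
      rwa [gs_inl] at this
    · have := h.1 (e (Sum.inr i))
      rwa [gs_inr] at this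
    · have := h.2 (e (Sum.inr i))
      rwa [gs_inr] at this
  · rintro ⟨h1, h2⟩
    constructor
    · intro j
      obtain ⟨s, rfl⟩ := e.surjective j
      rcases s with i | i
      · rw [gs_inl]
        exact h1.1 i
      · rw [gs_inr]
        exact h2.1 i
    · intro j
      obtain ⟨s, rfl⟩ := e.surjective j
      rcases s with i | i
      · rw [gs_inl]
        exact h1.2 i
      · rw [gs_inr]
        exact h2.2 i

lemma em_gs (e : Fin m ⊕ Fin k ≃ Fin n) (y : Fin n → ℝ) (t : ℝ)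
    (p : (Fin m → ℝ) × (Fin k → ℝ)) :
    Pool.Agent.Q89.SM.em y t (gs e p) =
      Pool.Agent.Q89.SM.em (fun i => y (e (Sum.inl i))) t p.1 *
      Pool.Agent.Q89.SM.em (fun i => y (e (Sum.inr i))) t p.2 := by
  unfold Pool.Agent.Q89.SM.em Pool.Agent.W771.MD.em
  rw [← e.prod_comp, Fintype.prod_sum_type]
  simp only [gs_inl, gs_inr]

/-- the slice of a function -/
noncomputable def sl (e : Fin m ⊕ Fin k ≃ Fin n) (f : (Fin n → ℝ) → ℂ) (v : Fin k → ℝ) (u : Fin m → ℝ) : ℂ :=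
  f (gs e (u, v))

/-- the slice of a function, in the other direction -/
noncomputable def sr (e : Fin m ⊕ Fin k ≃ Fin n) (f : (Fin n → ℝ) → ℂ) (u : Fin m → ℝ) (v : Fin k → ℝ) : ℂ :=
  f (gs e (u, v))

/-- the mollification in the second group of the variables -/
noncomputable def Pp (e : Fin m ⊕ Fin k ≃ Fin n) (R : ℝ) (f : (Fin n → ℝ) → ℂ)
    (ξ : Fin n → ℝ) : ℂ :=
  ∫ w : Fin k → ℝ, (Wr R w : ℂ) * f (ξ - gs e (0, w))

lemma Pp_gs (e : Fin m ⊕ Fin k ≃ Fin n) (R : ℝ) (f : (Fin n → ℝ) → ℂ) (u : Fin m → ℝ)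
    (v : Fin k → ℝ) : Pp e R f (gs e (u, v)) = Pm R (sr e f u) v := by
  unfold Pp Pm sr
  congr 1
  ext w
  rw [← gs_sub, Prod.mk_sub_mk, sub_zero]

lemma Bf.sr {f : (Fin n → ℝ) → ℂ} {M b : ℝ} (H : Bf f M b) (e : Fin m ⊕ Fin k ≃ Fin n)
    (u : Fin m → ℝ) : Bf (sr e f u) M b := by
  refine ⟨H.ms.comp ((gs e).measurable.comp measurable_prodMk_left), fun x => H.bd _, fun x hx => ?_⟩
  apply H.st
  intro h
  rw [gs_BA] at h
  exact hx h.2

lemma Bf.sl {f : (Fin n → ℝ) → ℂ} {M b : ℝ} (H : Bf f M b) (e : Fin m ⊕ Fin k ≃ Fin n)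
    (v : Fin k → ℝ) : Bf (sl e f v) M b := by
  refine ⟨H.ms.comp ((gs e).measurable.comp measurable_prodMk_right), fun x => H.bd _, fun x hx => ?_⟩
  apply H.st
  intro h
  rw [gs_BA] at h
  exact hx h.1

lemma Pp_meas {f : (Fin n → ℝ) → ℂ} {M b : ℝ} (H : Bf f M b) (e : Fin m ⊕ Fin k ≃ Fin n)
    (R : ℝ) : Measurable (Pp e R f) := by
  have h1 : Measurable fun p : (Fin n → ℝ) × (Fin k → ℝ) =>
      (Wr R p.2 : ℂ) * f (p.1 - gs e (0, p.2)) := by
    apply Measurable.mul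
    · exact (Complex.continuous_ofReal.comp (Wr_cont R)).measurable.comp measurable_snd
    · apply H.ms.comp
      apply measurable_fst.sub
      exact (gs e).measurable.comp (measurable_const.prodMk measurable_snd)
  exact (h1.stronglyMeasurable.integral_prod_right (ν := volume)).measurable

lemma Pp_Bf {f : (Fin n → ℝ) → ℂ} {M b : ℝ} (H : Bf f M b)
    (e : Fin m ⊕ Fin k ≃ Fin n) (R : ℝ) (hR : 1 ≤ R) : Bf (Pp e R f) M (b + 1) := by
  have key : ∀ ξ : Fin n → ℝ, Pp e R f ξ =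
      Pm R (PV.sr e f fun i => ξ (e (Sum.inl i))) fun i => ξ (e (Sum.inr i)) := by
    intro ξ
    rw [← Pp_gs, gs_fst]
  refine ⟨Pp_meas H e R, fun ξ => ?_, fun ξ hξ => ?_⟩
  · rw [key]
    exact (Pm_Bf (Bf.sr H e _) R hR).bd _
  · rw [key]
    by_cases h2 : (fun i => ξ (e (Sum.inr i))) ∈ BA (b + 1) k
    · have h1 : (fun i => ξ (e (Sum.inl i))) ∉ BA (b + 1) m := by
        intro h1
        apply hξ
        rw [← gs_fst e ξ, gs_BA]
        exact ⟨h1, h2⟩
      have h3 : (fun i => ξ (e (Sum.inl i))) ∉ BA b m := by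
        intro h3
        apply h1
        refine ⟨fun i => ?_, fun i => ?_⟩
        · have := h3.1 i
          simp only at this ⊢
          linarith
        · have := h3.2 i
          simp only at this ⊢
          linarith
      have h4 : PV.sr e f (fun i => ξ (e (Sum.inl i))) = fun _ => 0 := by
        ext v
        apply H.st
        intro h
        rw [gs_BA] at h
        exact h3 h.1
      rw [h4]
      unfold Pm
      simp
    · exact (Pm_Bf (Bf.sr H e _) R hR).st _ h2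

/-- the square of the error of the mollification -/
lemma Pp_err {f : (Fin n → ℝ) → ℂ} {M b : ℝ} (H : Bf f M b) (e : Fin m ⊕ Fin k ≃ Fin n)
    (R : ℝ) (hR : 0 < R) (ε : ℝ≥0∞)
    (hε : ∀ w : Fin k → ℝ, (∀ i, |w i| ≤ 1 / R) →
      ∫⁻ ξ, ‖f (ξ - gs e (0, w)) - f ξ‖ₑ ^ 2 ≤ ε) :
    ∫⁻ ξ, ‖Pp e R f ξ - f ξ‖ₑ ^ 2 ≤ ε := by
  have hgm : Measurable fun w : Fin k → ℝ => gs e ((0 : Fin m → ℝ), w) :=
    (gs e).measurable.comp (measurable_const.prodMk measurable_id)
  have hint : ∀ ξ, Integrable fun w : Fin k → ℝ => (Wr R w : ℂ) * f (ξ - gs e (0, w)) := by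
    intro ξ
    have h1 : Integrable (fun u : Fin k → ℝ => M * Wr R u) := (Wr_int R hR).const_mul M
    refine h1.mono' ?_ (ae_of_all _ fun u => ?_)
    · apply Measurable.aestronglyMeasurable
      exact (Complex.continuous_ofReal.comp (Wr_cont R)).measurable.mul
        (H.ms.comp (measurable_const.sub hgm))
    · rw [norm_mul, norm_real, Real.norm_eq_abs, abs_of_nonneg (Wr_nonneg R hR.le u), mul_comm]
      gcongr
      · exact Wr_nonneg R hR.le u
      · exact H.bd _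
  have hpt : ∀ ξ, ‖Pp e R f ξ - f ξ‖ₑ ≤
      ∫⁻ w : Fin k → ℝ, ENNReal.ofReal (Wr R w) * ‖f (ξ - gs e (0, w)) - f ξ‖ₑ := by
    intro ξ
    have h1 : f ξ = ∫ u : Fin k → ℝ, (Wr R u : ℂ) * f ξ := by
      rw [integral_mul_const, integral_complex_ofReal, Wr_int1 R hR]
      simp
    have h2 : Pp e R f ξ - f ξ = ∫ w : Fin k → ℝ, (Wr R w : ℂ) * (f (ξ - gs e (0, w)) - f ξ) := by
      conv_lhs => rw [h1]
      unfold Pp
      rw [← integral_sub]
      · congr 1
        ext u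
        ring
      · exact hint ξ
      · exact ((Wr_int R hR).ofReal).mul_const _
    rw [h2]
    refine (enorm_integral_le_lintegral_enorm _).trans (le_of_eq ?_)
    congr 1
    ext u
    rw [enorm_mul, ← ofReal_norm (Wr R u : ℂ), norm_real, Real.norm_eq_abs,
      abs_of_nonneg (Wr_nonneg R hR.le u)]
  have hdm : Measurable fun p : (Fin n → ℝ) × (Fin k → ℝ) =>
      ‖f (p.1 - gs e (0, p.2)) - f p.1‖ₑ := by
    apply Measurable.enorm
    apply Measurable.sub
    · exact H.ms.comp (measurable_fst.sub (hgm.comp measurable_snd))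
    · exact H.ms.comp measurable_fst
  have hcs : ∀ ξ, ‖Pp e R f ξ - f ξ‖ₑ ^ 2 ≤
      ∫⁻ w : Fin k → ℝ, ENNReal.ofReal (Wr R w) * ‖f (ξ - gs e (0, w)) - f ξ‖ₑ ^ 2 := by
    intro ξ
    have hμ : ∀ φ : (Fin k → ℝ) → ℝ≥0∞, Measurable φ →
        ∫⁻ u : Fin k → ℝ, ENNReal.ofReal (Wr R u) * φ u =
        ∫⁻ u : Fin k → ℝ, φ u ∂(volume.withDensity fun u => ENNReal.ofReal (Wr R u)) := by
      intro φ hφ
      rw [lintegral_withDensity_eq_lintegral_mul _ (Wr_cont R).measurable.ennreal_ofReal hφ]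
      rfl
    have h1 := hpt ξ
    have hmx : Measurable (fun w : Fin k → ℝ => ‖f (ξ - gs e (0, w)) - f ξ‖ₑ) :=
      hdm.comp (measurable_const.prodMk measurable_id)
    rw [hμ _ hmx] at h1
    rw [hμ _ (hmx.pow_const 2)]
    set ν : Measure (Fin k → ℝ) := volume.withDensity fun u => ENNReal.ofReal (Wr R u) with hν
    have hν1 : ν univ = 1 := by
      rw [hν, withDensity_apply _ MeasurableSet.univ, Measure.restrict_univ, Wr_lint R hR]
    have h3 := ENNReal.lintegral_mul_le_Lp_mul_Lq ν Real.HolderConjugate.two_two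
      (f := fun w => ‖f (ξ - gs e (0, w)) - f ξ‖ₑ) (g := fun _ => 1) hmx.aemeasurable
      aemeasurable_const
    simp only [ENNReal.rpow_ofNat, Pi.mul_apply, mul_one, one_pow, lintegral_const, hν1,
      ENNReal.one_rpow] at h3
    calc ‖Pp e R f ξ - f ξ‖ₑ ^ 2 ≤
          ((∫⁻ w, ‖f (ξ - gs e (0, w)) - f ξ‖ₑ ^ 2 ∂ν) ^ (1 / 2 : ℝ)) ^ 2 := by
          gcongr
          exact h1.trans h3
      _ = ∫⁻ w, ‖f (ξ - gs e (0, w)) - f ξ‖ₑ ^ 2 ∂ν := by
          rw [← ENNReal.rpow_natCast, ← ENNReal.rpow_mul]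
          norm_num
  have hj : Measurable (fun p : (Fin n → ℝ) × (Fin k → ℝ) =>
      ENNReal.ofReal (Wr R p.2) * ‖f (p.1 - gs e (0, p.2)) - f p.1‖ₑ ^ 2) :=
    ((Wr_cont R).measurable.ennreal_ofReal.comp measurable_snd).mul (hdm.pow_const 2)
  calc ∫⁻ ξ, ‖Pp e R f ξ - f ξ‖ₑ ^ 2 ≤
        ∫⁻ ξ, ∫⁻ w : Fin k → ℝ, ENNReal.ofReal (Wr R w) * ‖f (ξ - gs e (0, w)) - f ξ‖ₑ ^ 2 :=
        lintegral_mono hcs
    _ = ∫⁻ w : Fin k → ℝ, ∫⁻ ξ, ENNReal.ofReal (Wr R w) * ‖f (ξ - gs e (0, w)) - f ξ‖ₑ ^ 2 :=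
        lintegral_lintegral_swap hj.aemeasurable
    _ = ∫⁻ w : Fin k → ℝ, ENNReal.ofReal (Wr R w) *
          ∫⁻ ξ, ‖f (ξ - gs e (0, w)) - f ξ‖ₑ ^ 2 := by
        congr 1
        ext w
        rw [lintegral_const_mul]
        exact (hdm.pow_const 2).comp (measurable_id.prodMk measurable_const)
    _ ≤ ∫⁻ w : Fin k → ℝ, ENNReal.ofReal (Wr R w) * ε := by
        apply lintegral_mono
        intro u
        simp only
        by_cases hu : Wr R u = 0
        · rw [hu]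
          simp
        · gcongr
          exact hε u (Wr_supp R hR u hu)
    _ = ε := by
        rw [lintegral_mul_const _ (Wr_cont R).measurable.ennreal_ofReal, Wr_lint R hR, one_mul]

end Pool.Agent.Helper25.PV
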