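import Mathlib
import Pool.Agent.Helper25.PV.A
set_option autoImplicit false

/-! The extension of a function mollified in a group of the variables, in terms of the slices. -/

namespace Pool.Agent.Helper25.PV

open MeasureTheory Set Complex Filter Topology
open scoped ENNReal NNReal
open Pool.Agent.Y183.LS (BA ec ec_enorm ec_norm em_nrm em_enrm enorm_prd BA_fin lint_smul)
open Pool.Agent.Q89.SM hiding em
open Pool.Agent.Q89.LF (Aw)
open Pool.Agent.X146.RP (gs gs_inl gs_inr gs_mp sum_gs)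


variable {m k n : ℕ}

lemma em_meas' (y : Fin n → ℝ) (t : ℝ) : Measurable (Pool.Agent.Q89.SM.em y t) :=
  (emc.comp (by fun_prop : Continuous fun v : Fin n → ℝ =>
    (((t, y), v) : (ℝ × (Fin n → ℝ)) × (Fin n → ℝ)))).measurable

lemma em_nrm' (y : Fin n → ℝ) (t : ℝ) (v : Fin n → ℝ) : ‖Pool.Agent.Q89.SM.em y t v‖ = 1 := em_nrm y t v

/-- the extension operator in the two groups of the variables -/
lemma X_gs (e : Fin m ⊕ Fin k ≃ Fin n) {g : (Fin n → ℝ) → ℂ} {M b : ℝ} (H : Bf g M b) (t : ℝ)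
    (x : Fin m → ℝ) (y : Fin k → ℝ) :
    X g t (gs e (x, y)) = ∫ u : Fin m → ℝ, X (sr e g u) t y * Pool.Agent.Q89.SM.em x t u := by
  have h1 : X g t (gs e (x, y)) = ∫ p : (Fin m → ℝ) × (Fin k → ℝ),
      g (gs e p) * Pool.Agent.Q89.SM.em y t p.2 * Pool.Agent.Q89.SM.em x t p.1 := by
    unfold X
    rw [← (gs_mp e).integral_comp']
    congr 1
    ext p
    rw [em_gs]
    simp only [gs_inl, gs_inr]
    ring
  have hint : Integrable fun p : (Fin m → ℝ) × (Fin k → ℝ) =>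
      g (gs e p) * Pool.Agent.Q89.SM.em y t p.2 * Pool.Agent.Q89.SM.em x t p.1 := by
    have h2 : Integrable fun p : (Fin m → ℝ) × (Fin k → ℝ) => ‖g (gs e p)‖ :=
      ((gs_mp e).integrable_comp_emb (gs e).measurableEmbedding).mpr H.int.norm
    refine h2.mono' ?_ (ae_of_all _ fun p => ?_)
    · apply Measurable.aestronglyMeasurable
      exact ((H.ms.comp (gs e).measurable).mul ((em_meas' y t).comp measurable_snd)).mul
        ((em_meas' x t).comp measurable_fst)
    · rw [norm_mul, norm_mul, em_nrm', em_nrm', mul_one, mul_one]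
  rw [h1, Measure.volume_eq_prod, integral_prod _ (by rwa [← Measure.volume_eq_prod])]
  congr 1
  ext u
  simp only
  rw [integral_mul_const]
  rfl

/-- **the extension of the mollified function** -/
lemma X_Pp (e : Fin m ⊕ Fin k ≃ Fin n) {f : (Fin n → ℝ) → ℂ} {M b : ℝ} (H : Bf f M b)
    (R t : ℝ) (hR : 1 ≤ R) (x : Fin m → ℝ) (z : Fin k → ℝ) :
    X (Pp e R f) t (gs e (x, fun i => -(2 * t * z i))) =
      ∫ v : Fin k → ℝ, X (sl e f v) t x *
        ∏ i, (ec (-(t * z i ^ 2)) * Aw wc (t / R ^ 2) (R * (z i - v i))) := by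
  have hR0 : 0 < R := by linarith
  rw [X_gs e (Pp_Bf H e R hR)]
  set κ : (Fin k → ℝ) → ℂ := fun v =>
    ∏ i, (ec (-(t * z i ^ 2)) * Aw wc (t / R ^ 2) (R * (z i - v i))) with hκ
  have hκm : Measurable κ := by
    rw [hκ]
    apply Finset.measurable_fun_prod
    intro i _
    exact measurable_const.mul ((Aw_meas wc_win _).comp (by fun_prop))
  have hκb : ∀ v, ‖κ v‖ ≤ (∫ s, ‖wc s‖) ^ k := by
    intro v
    rw [hκ]
    simp only
    rw [norm_prod]
    calc ∏ i, ‖ec (-(t * z i ^ 2)) * Aw wc (t / R ^ 2) (R * (z i - v i))‖ ≤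
        ∏ _i : Fin k, ∫ s, ‖wc s‖ := by
          apply Finset.prod_le_prod
          · intro i _
            positivity
          · intro i _
            rw [norm_mul, ec_norm, one_mul]
            exact Aw_triv _ _
      _ = _ := by simp
  have h1 : ∀ u : Fin m → ℝ, X (sr e (Pp e R f) u) t (fun i => -(2 * t * z i)) * Pool.Agent.Q89.SM.em x t u =
      ∫ v : Fin k → ℝ, f (gs e (u, v)) * κ v * Pool.Agent.Q89.SM.em x t u := by
    intro u
    have h2 : sr e (Pp e R f) u = Pm R (sr e f u) := by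
      ext v
      exact Pp_gs e R f u v
    rw [h2, X_rep (Bf.sr H e u) R t hR0 z, ← integral_mul_const]
    rfl
  simp only [h1]
  rw [integral_integral_swap]
  · congr 1
    ext v
    unfold X
    rw [← integral_mul_const]
    congr 1
    ext u
    unfold sl
    ring
  · have h2 : Integrable fun p : (Fin m → ℝ) × (Fin k → ℝ) =>
        ‖f (gs e p)‖ * (∫ s, ‖wc s‖) ^ k := by
      apply Integrable.mul_const
      exact ((gs_mp e).integrable_comp_emb (gs e).measurableEmbedding).mpr H.int.norm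
    rw [Measure.volume_eq_prod] at h2
    refine h2.mono' ?_ (ae_of_all _ fun p => ?_)
    · apply Measurable.aestronglyMeasurable
      exact ((H.ms.comp (gs e).measurable).mul (hκm.comp measurable_snd)).mul
        ((em_meas' x t).comp measurable_fst)
    · simp only [Function.uncurry]
      rw [norm_mul, norm_mul, em_nrm', mul_one]
      gcongr
      exact hκb _

lemma X_Pp_le (e : Fin m ⊕ Fin k ≃ Fin n) {f : (Fin n → ℝ) → ℂ} {M b : ℝ} (H : Bf f M b)
    (R t : ℝ) (hR : 1 ≤ R) (x : Fin m → ℝ) (z : Fin k → ℝ) :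
    ‖X (Pp e R f) t (gs e (x, fun i => -(2 * t * z i)))‖ₑ ≤
      ∫⁻ v : Fin k → ℝ, ‖X (sl e f v) t x‖ₑ * Kn R t (z - v) := by
  rw [X_Pp e H R t hR x z]
  refine (enorm_integral_le_lintegral_enorm _).trans (le_of_eq ?_)
  congr 1
  ext v
  rw [enorm_mul, enorm_prd]
  unfold Kn
  congr 1
  apply Finset.prod_congr rfl
  intro i _
  rw [enorm_mul, ec_enorm, one_mul]
  rfl

/-- Young's inequality -/
lemma young (h κ : (Fin k → ℝ) → ℝ≥0∞) (hh : Measurable h) (hκ : Measurable κ) (q : ℝ)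
    (hq : 1 < q) (A : ℝ≥0∞) (hA : ∫⁻ v, κ v ≤ A) :
    ∫⁻ z, (∫⁻ v, h v * κ (z - v)) ^ q ≤ A ^ q * ∫⁻ v, h v ^ q := by
  have hq0 : 0 < q := by linarith
  have hpt : ∀ z, (∫⁻ v, h v * κ (z - v)) ^ q ≤
      A ^ (q - 1) * ∫⁻ v, h v ^ q * κ (z - v) := by
    intro z
    have hκz : Measurable fun v => κ (z - v) := hκ.comp (measurable_const.sub measurable_id)
    set ν : Measure (Fin k → ℝ) := volume.withDensity fun v => κ (z - v) with hν
    have hν1 : ν univ ≤ A := by
      rw [hν, withDensity_apply _ MeasurableSet.univ, Measure.restrict_univ,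
        lintegral_sub_left_eq_self (fun v => κ v) z]
      exact hA
    have hμ : ∀ φ : (Fin k → ℝ) → ℝ≥0∞, Measurable φ →
        ∫⁻ v, φ v * κ (z - v) = ∫⁻ v, φ v ∂ν := by
      intro φ hφ
      rw [hν, lintegral_withDensity_eq_lintegral_mul _ hκz hφ]
      congr 1
      ext v
      rw [Pi.mul_apply, mul_comm]
    rw [hμ _ hh, hμ _ (hh.pow_const q)]
    have hc : q.HolderConjugate (q / (q - 1)) := Real.HolderConjugate.conjExponent hq
    have h3 := ENNReal.lintegral_mul_le_Lp_mul_Lq ν hc (f := h) (g := fun _ => 1)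
      hh.aemeasurable aemeasurable_const
    simp only [Pi.mul_apply, mul_one, lintegral_const, ENNReal.one_rpow, one_mul] at h3
    calc (∫⁻ v, h v ∂ν) ^ q ≤
          ((∫⁻ v, h v ^ q ∂ν) ^ (1 / q) * (ν univ) ^ (1 / (q / (q - 1)))) ^ q := by
          apply ENNReal.rpow_le_rpow h3 hq0.le
      _ = (∫⁻ v, h v ^ q ∂ν) * (ν univ) ^ (q - 1) := by
          rw [ENNReal.mul_rpow_of_nonneg _ _ hq0.le, ← ENNReal.rpow_mul, ← ENNReal.rpow_mul,
            one_div_mul_cancel hq0.ne', ENNReal.rpow_one]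
          congr 2
          rw [one_div_div, div_mul_cancel₀ _ hq0.ne']
      _ ≤ (∫⁻ v, h v ^ q ∂ν) * A ^ (q - 1) := by
          gcongr
      _ = _ := mul_comm _ _
  have hj : Measurable fun p : (Fin k → ℝ) × (Fin k → ℝ) => h p.2 ^ q * κ (p.1 - p.2) :=
    ((hh.comp measurable_snd).pow_const q).mul (hκ.comp (measurable_fst.sub measurable_snd))
  calc ∫⁻ z, (∫⁻ v, h v * κ (z - v)) ^ q ≤
      ∫⁻ z, A ^ (q - 1) * ∫⁻ v, h v ^ q * κ (z - v) := lintegral_mono hpt
    _ = A ^ (q - 1) * ∫⁻ z, ∫⁻ v, h v ^ q * κ (z - v) := by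
        rw [lintegral_const_mul]
        exact hj.lintegral_prod_right'
    _ = A ^ (q - 1) * ∫⁻ v, ∫⁻ z, h v ^ q * κ (z - v) := by
        rw [lintegral_lintegral_swap hj.aemeasurable]
    _ = A ^ (q - 1) * ∫⁻ v, h v ^ q * ∫⁻ z, κ z := by
        congr 1
        apply lintegral_congr
        intro v
        have hkv : Measurable fun z => κ (z - v) := hκ.comp (measurable_id.sub measurable_const)
        rw [lintegral_const_mul _ hkv, lintegral_sub_right_eq_self (fun z => κ z) v]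
    _ = A ^ (q - 1) * ((∫⁻ z, κ z) * ∫⁻ v, h v ^ q) := by
        rw [lintegral_mul_const _ (hh.pow_const q), mul_comm (∫⁻ v, h v ^ q)]
    _ ≤ A ^ (q - 1) * (A * ∫⁻ v, h v ^ q) := by gcongr
    _ = _ := by
        rw [← mul_assoc]
        congr 1
        rw [mul_comm]
        by_cases hA0 : A = 0
        · rw [hA0, zero_mul, ENNReal.zero_rpow_of_pos hq0]
        · by_cases hAt : A = ⊤
          · rw [hAt, ENNReal.top_rpow_of_pos hq0, ENNReal.top_rpow_of_pos (by linarith),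
              ENNReal.top_mul_top]
          · nth_rewrite 1 [← ENNReal.rpow_one A]
            rw [← ENNReal.rpow_add _ _ hA0 hAt]
            congr 1
            ring

/-- the slices are measurable -/
lemma sl_meas (e : Fin m ⊕ Fin k ≃ Fin n) {f : (Fin n → ℝ) → ℂ} (hf : Measurable f) :
    Measurable fun w : (ℝ × (Fin m → ℝ)) × (Fin k → ℝ) => X (sl e f w.2) w.1.1 w.1.2 := by
  apply StronglyMeasurable.measurable
  apply StronglyMeasurable.integral_prod_right'
    (f := fun w : ((ℝ × (Fin m → ℝ)) × (Fin k → ℝ)) × (Fin m → ℝ) =>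
      f (gs e (w.2, w.1.2)) * Pool.Agent.Q89.SM.em w.1.1.2 w.1.1.1 w.2)
  apply Measurable.stronglyMeasurable
  apply Measurable.mul
  · exact hf.comp ((gs e).measurable.comp
      (measurable_snd.prodMk (measurable_snd.comp measurable_fst)))
  · exact (emc.comp (by fun_prop : Continuous fun w :
      ((ℝ × (Fin m → ℝ)) × (Fin k → ℝ)) × (Fin m → ℝ) =>
        ((w.1.1, w.2) : (ℝ × (Fin m → ℝ)) × (Fin m → ℝ)))).measurable

lemma sl_meas_v (e : Fin m ⊕ Fin k ≃ Fin n) {f : (Fin n → ℝ) → ℂ} (hf : Measurable f) (t : ℝ)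
    (x : Fin m → ℝ) : Measurable fun v : Fin k → ℝ => ‖X (sl e f v) t x‖ₑ := by
  have h1 : Measurable fun v : Fin k → ℝ =>
      (((t, x), v) : (ℝ × (Fin m → ℝ)) × (Fin k → ℝ)) := by fun_prop
  have h2 := ((sl_meas e hf).comp h1).enorm
  simp only [Function.comp_def] at h2
  exact h2

lemma sl_meas_p (e : Fin m ⊕ Fin k ≃ Fin n) {f : (Fin n → ℝ) → ℂ} (hf : Measurable f) (t : ℝ) :
    Measurable fun p : (Fin m → ℝ) × (Fin k → ℝ) => ‖X (sl e f p.2) t p.1‖ₑ := by
  have h1 : Measurable fun p : (Fin m → ℝ) × (Fin k → ℝ) =>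
      (((t, p.1), p.2) : (ℝ × (Fin m → ℝ)) × (Fin k → ℝ)) := by fun_prop
  have h2 := ((sl_meas e hf).comp h1).enorm
  simp only [Function.comp_def] at h2
  exact h2

/-- **the slicing inequality** at a fixed time -/
theorem slicing (m k n : ℕ) (q : ℝ) (hq : 1 < q) : ∃ C : ℝ≥0, ∀ (e : Fin m ⊕ Fin k ≃ Fin n)
    (f : (Fin n → ℝ) → ℂ) (M b : ℝ), Bf f M b → ∀ R t : ℝ, 1 ≤ R → R ^ 2 ≤ |t| →
    ∫⁻ y, ‖X (Pp e R f) t y‖ₑ ^ q ≤ C * ENNReal.ofReal (|t| ^ (-(k * (q - 2) / 2))) *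
      ∫⁻ v : Fin k → ℝ, ∫⁻ x, ‖X (sl e f v) t x‖ₑ ^ q := by
  obtain ⟨C₀, hC₀, HC⟩ := Kn_mass (m := k)
  have hq0 : 0 < q := by linarith
  refine ⟨Real.toNNReal (2 ^ k * (C₀ ^ k) ^ q), fun e f M b H R t hR ht => ?_⟩
  have ht0 : 0 < |t| := by nlinarith
  have htne : t ≠ 0 := abs_pos.mp ht0
  have hXm : Measurable fun y => ‖X (Pp e R f) t y‖ₑ ^ q :=
    ((X_meas _ (Pp_meas H e R)).comp (measurable_const.prodMk measurable_id)).enorm.pow_const q
  have h1 : ∫⁻ y, ‖X (Pp e R f) t y‖ₑ ^ q =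
      ∫⁻ x : Fin m → ℝ, ∫⁻ y : Fin k → ℝ, ‖X (Pp e R f) t (gs e (x, y))‖ₑ ^ q := by
    have h0 : Measurable fun p : (Fin m → ℝ) × (Fin k → ℝ) => ‖X (Pp e R f) t (gs e p)‖ₑ ^ q :=
      hXm.comp (gs e).measurable
    rw [← (gs_mp e).lintegral_comp hXm, Measure.volume_eq_prod,
      lintegral_prod _ h0.aemeasurable]
  have h2 : ∀ x : Fin m → ℝ, ∫⁻ y : Fin k → ℝ, ‖X (Pp e R f) t (gs e (x, y))‖ₑ ^ q =
      ENNReal.ofReal ((2 * |t|) ^ k) *
        ∫⁻ z : Fin k → ℝ, ‖X (Pp e R f) t (gs e (x, fun i => -(2 * t * z i)))‖ₑ ^ q := by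
    intro x
    have hm' : Measurable fun y : Fin k → ℝ => ‖X (Pp e R f) t (gs e (x, y))‖ₑ ^ q :=
      hXm.comp ((gs e).measurable.comp measurable_prodMk_left)
    rw [← lint_smul (-(2 * t)) (by simpa using htne) _ hm']
    congr 1
    · rw [abs_neg, abs_mul, abs_two]
    · congr 1
      ext z
      congr 5
      ext i
      simp
  have h3 : ∀ x : Fin m → ℝ,
      ∫⁻ z : Fin k → ℝ, ‖X (Pp e R f) t (gs e (x, fun i => -(2 * t * z i)))‖ₑ ^ q ≤
      (ENNReal.ofReal (C₀ * |t| ^ (-(1 / 2) : ℝ)) ^ k) ^ q *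
        ∫⁻ v : Fin k → ℝ, ‖X (sl e f v) t x‖ₑ ^ q := by
    intro x
    refine (lintegral_mono fun z => ENNReal.rpow_le_rpow (X_Pp_le e H R t hR x z) hq0.le).trans ?_
    have hm1 := HC R t (by linarith) ht
    exact young (fun v => ‖X (sl e f v) t x‖ₑ) (Kn R t) (sl_meas_v e H.ms t x) (Kn_meas R t) q hq
      _ hm1
  calc ∫⁻ y, ‖X (Pp e R f) t y‖ₑ ^ q ≤
      ∫⁻ x : Fin m → ℝ, ENNReal.ofReal ((2 * |t|) ^ k) *
        ((ENNReal.ofReal (C₀ * |t| ^ (-(1 / 2) : ℝ)) ^ k) ^ q *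
        ∫⁻ v : Fin k → ℝ, ‖X (sl e f v) t x‖ₑ ^ q) := by
        rw [h1]
        apply lintegral_mono
        intro x
        simp only
        rw [h2]
        gcongr
        exact h3 x
    _ = (ENNReal.ofReal ((2 * |t|) ^ k) *
        (ENNReal.ofReal (C₀ * |t| ^ (-(1 / 2) : ℝ)) ^ k) ^ q) *
        ∫⁻ x : Fin m → ℝ, ∫⁻ v : Fin k → ℝ, ‖X (sl e f v) t x‖ₑ ^ q := by
        rw [← lintegral_const_mul]
        · simp only [mul_assoc]
        · exact ((sl_meas_p e H.ms t).pow_const q).lintegral_prod_right'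
    _ = _ := by
        rw [lintegral_lintegral_swap ((sl_meas_p e H.ms t).pow_const q).aemeasurable]
        congr 1
        rw [← ENNReal.ofReal_pow (by positivity), ENNReal.ofReal_rpow_of_nonneg (by positivity)
          hq0.le, ← ENNReal.ofReal_mul (by positivity), ENNReal.ofNNReal_toNNReal,
          ← ENNReal.ofReal_mul (by positivity)]
        congr 1
        rw [mul_pow, mul_pow, Real.mul_rpow (by positivity) (by positivity),
          ← Real.rpow_natCast (|t| ^ (-(1 / 2) : ℝ)), ← Real.rpow_mul ht0.le,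
          ← Real.rpow_mul ht0.le, ← Real.rpow_natCast |t|]
        have e1 : |t| ^ (-(k * (q - 2) / 2)) =
            |t| ^ (k : ℝ) * |t| ^ (-(1 / 2) * (k : ℝ) * q) := by
          rw [← Real.rpow_add ht0]
          congr 1
          ring
        rw [e1]
        ring

end Pool.Agent.Helper25.PV
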