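import Mathlib
import Pool.Graph.R_pool_sql_team_seeded_3997aac3.Q89.SM.K
import Pool.Agent.Helper25.PV.B
set_option autoImplicit false

/-! The estimate for functions that are regular in a group of the variables, from local estimates
for the slices. -/

namespace Pool.Agent.Helper25.PV

open MeasureTheory Set Complex Filter Topology
open scoped ENNReal NNReal
open Pool.Agent.Y183.LS (BA ec ec_enorm ec_norm em_nrm em_enrm enorm_prd BA_fin lint_smul)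
open Pool.Agent.Q89.SM hiding em
open Pool.Agent.Q89.LF (Aw)
open Pool.Agent.X146.RP (gs gs_inl gs_inr gs_mp sum_gs)

variable {m k n : ℕ}

/-- the geometric series -/
noncomputable def geo (c : ℝ) : ℝ≥0∞ := ∑' i : ℕ, ENNReal.ofReal (((2 : ℝ) ^ i) ^ (-c))

lemma geo_fin (c : ℝ) (hc : 0 < c) : geo c ≠ ∞ := by
  unfold geo
  have h1 : ∀ i : ℕ, ENNReal.ofReal (((2 : ℝ) ^ i) ^ (-c)) = ENNReal.ofReal ((2 : ℝ) ^ (-c)) ^ i := by
    intro i
    rw [← ENNReal.ofReal_pow (by positivity), ← Real.rpow_natCast, ← Real.rpow_natCast,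
      ← Real.rpow_mul (by norm_num), ← Real.rpow_mul (by norm_num), mul_comm]
  simp only [h1, ENNReal.tsum_geometric]
  apply ENNReal.inv_ne_top.mpr
  have h2 : ENNReal.ofReal ((2 : ℝ) ^ (-c)) < 1 := by
    rw [ENNReal.ofReal_lt_one]
    exact Real.rpow_lt_one_of_one_lt_of_neg one_lt_two (by linarith)
  exact (tsub_pos_of_lt h2).ne'

lemma JT_cover : (univ : Set ℝ) ⊆ {t : ℝ | |t| < 1} ∪ ⋃ i : ℕ, JT ((2 : ℝ) ^ i) := by
  intro t _
  by_cases h : |t| < 1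
  · exact Or.inl h
  · right
    push Not at h
    have h1 : ∃ n : ℕ, |t| < 2 * 2 ^ n := by
      obtain ⟨n, hn⟩ := pow_unbounded_of_one_lt |t| (one_lt_two : (1 : ℝ) < 2)
      refine ⟨n, hn.trans_le ?_⟩
      have : (0 : ℝ) < 2 ^ n := by positivity
      linarith
    classical
    refine mem_iUnion.2 ⟨Nat.find h1, ?_, Nat.find_spec h1⟩
    rcases Nat.eq_zero_or_pos (Nat.find h1) with h2 | h2
    · rw [h2, pow_zero]
      exact h
    · have h3 := Nat.find_min h1 (Nat.sub_lt h2 one_pos)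
      push Not at h3
      have h4 : (2 : ℝ) * 2 ^ (Nat.find h1 - 1) = 2 ^ (Nat.find h1) := by
        rw [← pow_succ', Nat.sub_add_cancel h2]
      rwa [h4] at h3

lemma sl_zero (e : Fin m ⊕ Fin k ≃ Fin n) {f : (Fin n → ℝ) → ℂ} {M b : ℝ} (H : Bf f M b)
    (v : Fin k → ℝ) (hv : v ∉ BA b k) (t : ℝ) (x : Fin m → ℝ) : X (sl e f v) t x = 0 := by
  unfold X
  rw [← integral_zero (Fin m → ℝ) ℂ]
  congr 1
  ext u
  unfold sl
  rw [H.st, zero_mul]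
  intro h
  rw [gs_BA] at h
  exact hv h.2

/-- the main part -/
lemma block_main (m k n : ℕ) (q : ℝ) (hq : 2 < q) : ∃ C : ℝ≥0, ∀ (e : Fin m ⊕ Fin k ≃ Fin n)
    (f : (Fin n → ℝ) → ℂ), Bf f 1 1 → ∀ (T : ℝ), 1 ≤ T → ∀ (L : ℝ≥0∞),
    (∀ v, ∫⁻ t in JT T, ∫⁻ x, ‖X (sl e f v) t x‖ₑ ^ q ≤ L) →
    ∫⁻ t in JT T, ∫⁻ y, ‖X (Pp e (√T) f) t y‖ₑ ^ q ≤
      C * ENNReal.ofReal (T ^ (-(k * (q - 2) / 2))) * L := by
  obtain ⟨C, hC⟩ := slicing m k n q (by linarith)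
  refine ⟨C * 2 ^ k, fun e f H T hT L hL => ?_⟩
  have hT0 : 0 < T := by linarith
  have hR : 1 ≤ √T := Real.one_le_sqrt.mpr hT
  have hm3 : Measurable fun w : ℝ × (Fin k → ℝ) => ∫⁻ x : Fin m → ℝ, ‖X (sl e f w.2) w.1 x‖ₑ ^ q := by
    have h1 : Measurable fun z : (ℝ × (Fin k → ℝ)) × (Fin m → ℝ) =>
        ‖X (sl e f z.1.2) z.1.1 z.2‖ₑ ^ q := by
      have h2 : Measurable fun z : (ℝ × (Fin k → ℝ)) × (Fin m → ℝ) =>
        (((z.1.1, z.2), z.1.2) : (ℝ × (Fin m → ℝ)) × (Fin k → ℝ)) := by fun_prop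
      have h3 := ((sl_meas e H.ms).comp h2).enorm.pow_const q
      simp only [Function.comp_def] at h3
      exact h3
    exact h1.lintegral_prod_right'
  calc ∫⁻ t in JT T, ∫⁻ y, ‖X (Pp e (√T) f) t y‖ₑ ^ q ≤
      ∫⁻ t in JT T, C * ENNReal.ofReal (T ^ (-(k * (q - 2) / 2))) *
        ∫⁻ v : Fin k → ℝ, ∫⁻ x, ‖X (sl e f v) t x‖ₑ ^ q := by
        apply setLIntegral_mono' (JT_meas T)
        intro t ht
        have ht1 : T ≤ |t| := ht.1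
        refine (hC e f 1 1 H (√T) t hR (by rw [Real.sq_sqrt hT0.le]; exact ht1)).trans ?_
        gcongr _ * ?_ * _
        apply ENNReal.ofReal_le_ofReal
        apply Real.rpow_le_rpow_of_nonpos hT0 ht1
        have : (0 : ℝ) ≤ k * (q - 2) / 2 := by
          have : 0 < q - 2 := by linarith
          positivity
        linarith
    _ = C * ENNReal.ofReal (T ^ (-(k * (q - 2) / 2))) *
        ∫⁻ t in JT T, ∫⁻ v : Fin k → ℝ, ∫⁻ x, ‖X (sl e f v) t x‖ₑ ^ q := by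
        rw [lintegral_const_mul]
        exact hm3.lintegral_prod_right'
    _ = C * ENNReal.ofReal (T ^ (-(k * (q - 2) / 2))) *
        ∫⁻ v : Fin k → ℝ, ∫⁻ t in JT T, ∫⁻ x, ‖X (sl e f v) t x‖ₑ ^ q := by
        rw [lintegral_lintegral_swap hm3.aemeasurable]
    _ ≤ C * ENNReal.ofReal (T ^ (-(k * (q - 2) / 2))) *
        ∫⁻ v : Fin k → ℝ, (BA 1 k).indicator (fun _ => L) v := by
        gcongr with v
        by_cases hv : v ∈ BA 1 k
        · rw [indicator_of_mem hv]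
          exact hL v
        · rw [indicator_of_notMem hv]
          simp only [sl_zero e H v hv, enorm_zero, ENNReal.zero_rpow_of_pos (by linarith : 0 < q),
            lintegral_const, zero_mul, le_refl]
    _ = _ := by
        rw [lintegral_indicator measurableSet_Icc, setLIntegral_const, Real.volume_Icc_pi]
        simp only [sub_neg_eq_add]
        norm_num
        rw [mul_right_comm, mul_comm L, ← mul_assoc]
        ring

/-- the error -/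
lemma block_err (hn : 1 ≤ n) (q : ℝ) (hq : 2 < q) (hqn : q < 2 + 4 / (n : ℝ))
    (e : Fin m ⊕ Fin k ≃ Fin n)
    {f : (Fin n → ℝ) → ℂ} (H : Bf f 1 1) (T : ℝ) (hT : 1 ≤ T) (σ : ℝ) (hσ : 0 < σ) (A : ℝ≥0)
    (hA : ∀ w : Fin k → ℝ, ‖w‖ ≤ 1 →
      ∫⁻ ξ, ‖f (ξ + gs e (0, w)) - f ξ‖ₑ ^ 2 ≤ A * ENNReal.ofReal (‖w‖ ^ (2 * σ))) :
    ∫⁻ t in JT T, ∫⁻ y, ‖X (fun ξ => f ξ - Pp e (√T) f ξ) t y‖ₑ ^ q ≤
      ENNReal.ofReal (Cb n q) * (A : ℝ≥0∞) ^ (q / 2) *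
        ENNReal.ofReal (T ^ (-(n * (q - 2) / 4 + σ * q / 2 - 1))) := by
  have hT0 : 0 < T := by linarith
  have hR : 1 ≤ √T := Real.one_le_sqrt.mpr hT
  have hR0 : 0 < √T := by linarith
  have hP := Pp_Bf H e (√T) hR
  have hg : Measurable fun ξ => f ξ - Pp e (√T) f ξ := H.ms.sub hP.ms
  have hsup : ∀ ξ, ξ ∉ BA 2 n → f ξ - Pp e (√T) f ξ = 0 := by
    intro ξ hξ
    rw [H.st ξ (fun h => hξ (Icc_subset_Icc (fun i => by norm_num) (fun i => by norm_num) h)),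
      hP.st ξ (fun h => hξ (by
        have e1 : (1 : ℝ) + 1 = 2 := by norm_num
        rwa [e1] at h)), sub_zero]
  have hL2 : ∫⁻ ξ, ‖f ξ - Pp e (√T) f ξ‖ₑ ^ 2 ≤ A * ENNReal.ofReal (T ^ (-σ)) := by
    have h1 : ∀ ξ, ‖f ξ - Pp e (√T) f ξ‖ₑ = ‖Pp e (√T) f ξ - f ξ‖ₑ := by
      intro ξ
      rw [← enorm_neg, neg_sub]
    simp only [h1]
    apply Pp_err H e (√T) hR0
    intro w hw
    have h2 : ‖w‖ ≤ 1 / √T := by
      rw [pi_norm_le_iff_of_nonneg (by positivity)]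
      exact hw
    have h3 : gs e ((0 : Fin m → ℝ), -w) = -gs e (0, w) := by
      have := gs_sub e (0, 0) ((0 : Fin m → ℝ), w)
      rw [Prod.mk_sub_mk, sub_zero, zero_sub] at this
      rw [this]
      have h0 : gs e ((0 : Fin m → ℝ), (0 : Fin k → ℝ)) = 0 := by
        have := gs_sub e ((0 : Fin m → ℝ), (0 : Fin k → ℝ)) (0, 0)
        rw [sub_self, sub_self] at this
        exact this
      rw [h0, zero_sub]
    have h4 := hA (-w) (by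
      rw [norm_neg]
      refine h2.trans ?_
      rw [div_le_one hR0]
      exact hR)
    rw [h3, norm_neg] at h4
    simp only [← sub_eq_add_neg] at h4
    refine h4.trans ?_
    gcongr
    calc ‖w‖ ^ (2 * σ) ≤ (1 / √T) ^ (2 * σ) := by
          apply Real.rpow_le_rpow (norm_nonneg _) h2 (by positivity)
      _ = T ^ (-σ) := by
          rw [Real.sqrt_eq_rpow, one_div, ← Real.rpow_neg hT0.le, ← Real.rpow_mul hT0.le]
          congr 1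
          ring
  have hfin : ∫⁻ ξ, ‖f ξ - Pp e (√T) f ξ‖ₑ ^ 2 ≠ ∞ :=
    ne_top_of_le_ne_top (ENNReal.mul_ne_top ENNReal.coe_ne_top ENNReal.ofReal_ne_top) hL2
  refine (block' hn q hq hqn _ hg 2 (by norm_num) hsup hfin T hT0).trans ?_
  calc ENNReal.ofReal (Cb n q * T ^ (1 - n * (q - 2) / 4)) *
        (∫⁻ ξ, ‖f ξ - Pp e (√T) f ξ‖ₑ ^ 2) ^ (q / 2) ≤
      ENNReal.ofReal (Cb n q * T ^ (1 - n * (q - 2) / 4)) *
        (A * ENNReal.ofReal (T ^ (-σ))) ^ (q / 2) := by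
        gcongr
    _ = _ := by
        rw [ENNReal.mul_rpow_of_nonneg _ _ (by linarith),
          ENNReal.ofReal_rpow_of_nonneg (by positivity) (by linarith),
          ENNReal.ofReal_mul' (by positivity), mul_assoc (ENNReal.ofReal (Cb n q)),
          mul_left_comm (ENNReal.ofReal _) ((A : ℝ≥0∞) ^ (q / 2)), ← mul_assoc,
          ← ENNReal.ofReal_mul (by positivity)]
        congr 2
        rw [← Real.rpow_mul hT0.le, ← Real.rpow_add hT0]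
        congr 1
        ring

lemma split2 (q : ℝ) (hq : 2 < q) (J : Set ℝ) (F G H : ℝ → (Fin n → ℝ) → ℂ)
    (h : ∀ t y, F t y = G t y + H t y)
    (hG : Measurable fun z : ℝ × (Fin n → ℝ) => G z.1 z.2) :
    ∫⁻ t in J, ∫⁻ y, ‖F t y‖ₑ ^ q ≤
      2 ^ (q - 1) * ((∫⁻ t in J, ∫⁻ y, ‖G t y‖ₑ ^ q) + ∫⁻ t in J, ∫⁻ y, ‖H t y‖ₑ ^ q) := by
  have h2q : (2 : ℝ≥0∞) ^ (q - 1) ≠ ∞ := by
    apply ENNReal.rpow_ne_top_of_nonneg (by linarith) (by norm_num)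
  have hGm : Measurable fun z : ℝ × (Fin n → ℝ) => ‖G z.1 z.2‖ₑ ^ q := hG.enorm.pow_const q
  have hpt : ∀ t : ℝ, ∫⁻ y, ‖F t y‖ₑ ^ q ≤
      2 ^ (q - 1) * ((∫⁻ y, ‖G t y‖ₑ ^ q) + ∫⁻ y, ‖H t y‖ₑ ^ q) := by
    intro t
    have hpt1 : Measurable fun y => ‖G t y‖ₑ ^ q := hGm.comp measurable_prodMk_left
    rw [← lintegral_add_left hpt1, ← lintegral_const_mul' _ _ h2q]
    apply lintegral_mono
    intro y
    simp only
    rw [h t y]
    refine (ENNReal.rpow_le_rpow (enorm_add_le _ _) (by linarith)).trans ?_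
    exact ENNReal.rpow_add_le_mul_rpow_add_rpow _ _ (by linarith)
  calc ∫⁻ t in J, ∫⁻ y, ‖F t y‖ₑ ^ q ≤
      ∫⁻ t in J, 2 ^ (q - 1) * ((∫⁻ y, ‖G t y‖ₑ ^ q) + ∫⁻ y, ‖H t y‖ₑ ^ q) :=
        lintegral_mono fun t => hpt t
    _ = _ := by
        rw [lintegral_const_mul' _ _ h2q, lintegral_add_left hGm.lintegral_prod_right']

/-- **the principle** -/
theorem principle (m k n : ℕ) (hn : 1 ≤ n) (q a σ : ℝ) (hq : 2 < q) (hqn : q < 2 + 4 / (n : ℝ))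
    (ha : a < k * (q - 2) / 2) (hσ : 4 - n * (q - 2) < 2 * σ * q) (A₀ : ℝ≥0) :
    ∃ C : ℝ≥0, ∀ (e : Fin m ⊕ Fin k ≃ Fin n) (f : (Fin n → ℝ) → ℂ) (A : ℝ≥0), Bf f 1 1 →
    (∀ v, ∀ T : ℝ, 1 ≤ T → ∫⁻ t in {t : ℝ | |t| ≤ T}, ∫⁻ x, ‖X (sl e f v) t x‖ₑ ^ q ≤
      A₀ * ENNReal.ofReal (T ^ a)) →
    (∀ w : Fin k → ℝ, ‖w‖ ≤ 1 →
      ∫⁻ ξ, ‖f (ξ + gs e (0, w)) - f ξ‖ₑ ^ 2 ≤ A * ENNReal.ofReal (‖w‖ ^ (2 * σ))) →
    ∫⁻ t, ∫⁻ y, ‖X f t y‖ₑ ^ q ≤ C * (1 + (A : ℝ≥0∞) ^ (q / 2)) := by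
  have hn0 : (0 : ℝ) < n := by exact_mod_cast hn
  have hq0 : 0 < q := by linarith
  have hnq : n * (q - 2) < 4 := by
    have h1 : q - 2 < 4 / n := by linarith
    rw [lt_div_iff₀ hn0] at h1
    linarith
  have hσ0 : 0 < σ := by
    by_contra hc
    push Not at hc
    nlinarith
  obtain ⟨C₁, hC₁⟩ := block_main m k n q hq
  set c₁ : ℝ := k * (q - 2) / 2 - a with hc₁
  set c₂ : ℝ := n * (q - 2) / 4 + σ * q / 2 - 1 with hc₂
  have hc₁0 : 0 < c₁ := by rw [hc₁]; linarith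
  have hc₂0 : 0 < c₂ := by rw [hc₂]; linarith
  set D₀ : ℝ≥0∞ := 2 * (ENNReal.ofReal (2 ^ n) ^ (q - 2) * ENNReal.ofReal (2 ^ n)) with hD₀
  set D₁ : ℝ≥0∞ := 2 ^ (q - 1) * (C₁ * (A₀ * ENNReal.ofReal (2 ^ a))) with hD₁
  set D₂ : ℝ≥0∞ := 2 ^ (q - 1) * ENNReal.ofReal (Cb n q) with hD₂
  have h2q : (2 : ℝ≥0∞) ^ (q - 1) ≠ ∞ := by
    apply ENNReal.rpow_ne_top_of_nonneg (by linarith) (by norm_num)
  have hD₀f : D₀ ≠ ∞ := by
    rw [hD₀]
    refine ENNReal.mul_ne_top (by norm_num) (ENNReal.mul_ne_top ?_ ENNReal.ofReal_ne_top)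
    exact ENNReal.rpow_ne_top_of_nonneg (by linarith) ENNReal.ofReal_ne_top
  have hD₁f : D₁ ≠ ∞ := ENNReal.mul_ne_top h2q
    (ENNReal.mul_ne_top ENNReal.coe_ne_top (ENNReal.mul_ne_top ENNReal.coe_ne_top
      ENNReal.ofReal_ne_top))
  have hD₂f : D₂ ≠ ∞ := ENNReal.mul_ne_top h2q ENNReal.ofReal_ne_top
  have hfin : D₀ + D₁ * geo c₁ + D₂ * geo c₂ ≠ ∞ :=
    ENNReal.add_ne_top.mpr ⟨ENNReal.add_ne_top.mpr ⟨hD₀f,
      ENNReal.mul_ne_top hD₁f (geo_fin _ hc₁0)⟩, ENNReal.mul_ne_top hD₂f (geo_fin _ hc₂0)⟩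
  refine ⟨(D₀ + D₁ * geo c₁ + D₂ * geo c₂).toNNReal, fun e f A H hL hA => ?_⟩
  rw [ENNReal.coe_toNNReal hfin]
  have hb1 : ∀ ξ, ‖f ξ‖ₑ ≤ (BA 1 n).indicator (fun _ => (1 : ℝ≥0∞)) ξ := by
    intro ξ
    by_cases hξ : ξ ∈ BA 1 n
    · rw [indicator_of_mem hξ, ← ofReal_norm, ← ENNReal.ofReal_one]
      exact ENNReal.ofReal_le_ofReal (H.bd ξ)
    · rw [indicator_of_notMem hξ, H.st ξ hξ, enorm_zero]
  have hvol : ∫⁻ ξ : Fin n → ℝ, (BA 1 n).indicator (fun _ => (1 : ℝ≥0∞)) ξ =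
      ENNReal.ofReal (2 ^ n) := by
    rw [lintegral_indicator measurableSet_Icc, setLIntegral_const, Real.volume_Icc_pi]
    simp only [sub_neg_eq_add, one_mul]
    norm_num
  have hi1 : ∫⁻ ξ, ‖f ξ‖ₑ ≤ ENNReal.ofReal (2 ^ n) := by
    rw [← hvol]
    exact lintegral_mono hb1
  have hi2 : ∫⁻ ξ, ‖f ξ‖ₑ ^ 2 ≤ ENNReal.ofReal (2 ^ n) := by
    rw [← hvol]
    apply lintegral_mono
    intro ξ
    simp only
    refine (pow_le_pow_left' (hb1 ξ) 2).trans ?_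
    by_cases hξ : ξ ∈ BA 1 n
    · rw [indicator_of_mem hξ]
      norm_num
    · rw [indicator_of_notMem hξ]
      norm_num
  have hXm : Measurable fun z : ℝ × (Fin n → ℝ) => ‖X f z.1 z.2‖ₑ ^ q :=
    (X_meas f H.ms).enorm.pow_const q
  have hXt : Measurable fun t : ℝ => ∫⁻ y, ‖X f t y‖ₑ ^ q := hXm.lintegral_prod_right'
  -- one block
  have hblock : ∀ i : ℕ, ∫⁻ t in JT ((2 : ℝ) ^ i), ∫⁻ y, ‖X f t y‖ₑ ^ q ≤
      D₁ * ENNReal.ofReal (((2 : ℝ) ^ i) ^ (-c₁)) +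
      D₂ * (A : ℝ≥0∞) ^ (q / 2) * ENNReal.ofReal (((2 : ℝ) ^ i) ^ (-c₂)) := by
    intro i
    set T : ℝ := (2 : ℝ) ^ i with hT
    have hT1 : 1 ≤ T := one_le_pow₀ (by norm_num)
    have hT0 : 0 < T := by linarith
    have hR : 1 ≤ √T := Real.one_le_sqrt.mpr hT1
    have hP := Pp_Bf H e (√T) hR
    have hsub : ∀ t y, X f t y = X (Pp e (√T) f) t y + X (fun ξ => f ξ - Pp e (√T) f ξ) t y := by
      intro t y
      rw [X_sub H hP]
      ring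
    have hgm : Measurable fun ξ => f ξ - Pp e (√T) f ξ := H.ms.sub hP.ms
    have hpm : Measurable fun z : ℝ × (Fin n → ℝ) => ‖X (Pp e (√T) f) z.1 z.2‖ₑ ^ q :=
      (X_meas _ hP.ms).enorm.pow_const q
    have hmain := hC₁ e f H T hT1 (A₀ * ENNReal.ofReal ((2 * T) ^ a)) (fun v => by
      refine (lintegral_mono_set ?_).trans (hL v (2 * T) (by linarith))
      intro t ht
      exact ht.2.le)
    have herr := block_err hn q hq hqn e H T hT1 σ hσ0 A hA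
    calc ∫⁻ t in JT T, ∫⁻ y, ‖X f t y‖ₑ ^ q ≤
        2 ^ (q - 1) * ((∫⁻ t in JT T, ∫⁻ y, ‖X (Pp e (√T) f) t y‖ₑ ^ q) +
          ∫⁻ t in JT T, ∫⁻ y, ‖X (fun ξ => f ξ - Pp e (√T) f ξ) t y‖ₑ ^ q) :=
          split2 q hq (JT T) (X f) (X (Pp e (√T) f)) (X fun ξ => f ξ - Pp e (√T) f ξ) hsub
            (X_meas _ hP.ms)
      _ ≤ 2 ^ (q - 1) * (C₁ * ENNReal.ofReal (T ^ (-(k * (q - 2) / 2))) *
            (A₀ * ENNReal.ofReal ((2 * T) ^ a)) +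
          ENNReal.ofReal (Cb n q) * (A : ℝ≥0∞) ^ (q / 2) *
            ENNReal.ofReal (T ^ (-(n * (q - 2) / 4 + σ * q / 2 - 1)))) := by gcongr
      _ = _ := by
          rw [mul_add, hD₁, hD₂]
          congr 1
          · rw [Real.mul_rpow (by norm_num) hT0.le, ENNReal.ofReal_mul (by positivity)]
            have e1 : ENNReal.ofReal (T ^ (-c₁)) =
                ENNReal.ofReal (T ^ (-(k * (q - 2) / 2))) * ENNReal.ofReal (T ^ a) := by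
              rw [← ENNReal.ofReal_mul (by positivity), ← Real.rpow_add hT0]
              congr 2
              rw [hc₁]
              ring
            rw [e1]
            ring
          · ring
  calc ∫⁻ t, ∫⁻ y, ‖X f t y‖ₑ ^ q = ∫⁻ t in univ, ∫⁻ y, ‖X f t y‖ₑ ^ q := by
        rw [Measure.restrict_univ]
    _ ≤ ∫⁻ t in {t : ℝ | |t| < 1} ∪ ⋃ i : ℕ, JT ((2 : ℝ) ^ i), ∫⁻ y, ‖X f t y‖ₑ ^ q :=
        lintegral_mono_set JT_cover
    _ ≤ (∫⁻ t in {t : ℝ | |t| < 1}, ∫⁻ y, ‖X f t y‖ₑ ^ q) +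
        ∫⁻ t in ⋃ i : ℕ, JT ((2 : ℝ) ^ i), ∫⁻ y, ‖X f t y‖ₑ ^ q := lintegral_union_le _ _ _
    _ ≤ D₀ + ∑' i : ℕ, (D₁ * ENNReal.ofReal (((2 : ℝ) ^ i) ^ (-c₁)) +
          D₂ * (A : ℝ≥0∞) ^ (q / 2) * ENNReal.ofReal (((2 : ℝ) ^ i) ^ (-c₂))) := by
        gcongr
        · refine (smallT q hq.le f H.ms 1 H.st (ne_top_of_le_ne_top ENNReal.ofReal_ne_top
            hi2)).trans ?_
          rw [hD₀]
          gcongr
        · refine (lintegral_iUnion_le _ _).trans ?_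
          exact ENNReal.tsum_le_tsum hblock
    _ = D₀ + (D₁ * geo c₁ + D₂ * (A : ℝ≥0∞) ^ (q / 2) * geo c₂) := by
        rw [ENNReal.tsum_add, ENNReal.tsum_mul_left, ENNReal.tsum_mul_left]
        rfl
    _ ≤ (D₀ + D₁ * geo c₁ + D₂ * geo c₂) * (1 + (A : ℝ≥0∞) ^ (q / 2)) := by
        set Z := (A : ℝ≥0∞) ^ (q / 2)
        calc D₀ + (D₁ * geo c₁ + D₂ * Z * geo c₂) =
            (D₀ + D₁ * geo c₁) + (D₂ * geo c₂) * Z := by ring
          _ ≤ (D₀ + D₁ * geo c₁ + D₂ * geo c₂) * 1 +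
              (D₀ + D₁ * geo c₁ + D₂ * geo c₂) * Z := by
              gcongr
              · rw [mul_one]
                exact le_self_add
              · exact le_add_self
          _ = _ := by ring

end Pool.Agent.Helper25.PV
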