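import Mathlib
import Pool.Graph.R_pool_sql_team_seeded_64922ed1.X146.RP.C
import Pool.Agent.Helper25.PV.C
set_option autoImplicit false

/-! The converse: tensor products with the indicator function of a cube. -/

namespace Pool.Agent.Helper25.PV

open MeasureTheory Set Complex Filter Topology
open scoped ENNReal NNReal
open Pool.Agent.Y183.LS (BA ec ec_enorm ec_norm em_nrm em_enrm enorm_prd BA_fin lint_smul lint_prod)
open Pool.Agent.Q89.SM hiding em
open Pool.Agent.X146.RP (gs gs_inl gs_inr gs_mp sum_gs one1 one1_adm mass)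
open Pool.Agent.TH277.HT (E1 E1t_meas ch)


variable {m k n : ℕ}

/-- the lower bound in one variable -/
lemma low1 (q : ℝ) (hq : 2 < q) (t : ℝ) (ht : 1 ≤ t) :
    ENNReal.ofReal ((8 * t) ^ (-((q - 2) / 2))) ≤ ∫⁻ x : ℝ, ‖E1 one1 x t‖ₑ ^ q := by
  have hq0 : 0 < q := by linarith
  have h8 : 0 < 8 * t := by linarith
  set I : ℝ≥0∞ := ∫⁻ x in Icc (-(4 * t)) (4 * t), ‖E1 one1 x t‖ₑ ^ q with hI
  have hm : Measurable fun x : ℝ => ‖E1 one1 x t‖ₑ := (E1t_meas one1_adm t).enorm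
  have hc : (q / 2).HolderConjugate (q / (q - 2)) := by
    rw [Real.holderConjugate_iff]
    refine ⟨by linarith, ?_⟩
    have : q - 2 ≠ 0 := by linarith
    field_simp
    ring
  have h1 := ENNReal.lintegral_mul_le_Lp_mul_Lq (volume.restrict (Icc (-(4 * t)) (4 * t))) hc
    (f := fun x => ‖E1 one1 x t‖ₑ ^ (2 : ℝ)) (g := fun _ => 1) (hm.pow_const _).aemeasurable
    aemeasurable_const
  simp only [Pi.mul_apply, mul_one, lintegral_const, ENNReal.one_rpow, one_mul,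
    Measure.restrict_apply_univ, Real.volume_Icc] at h1
  have h2 : ∀ x : ℝ, (‖E1 one1 x t‖ₑ ^ (2 : ℝ)) ^ (q / 2) = ‖E1 one1 x t‖ₑ ^ q := by
    intro x
    rw [← ENNReal.rpow_mul]
    congr 1
    ring
  simp only [h2] at h1
  have h3 : (1 : ℝ≥0∞) ≤ I ^ (1 / (q / 2)) * ENNReal.ofReal (8 * t) ^ (1 / (q / (q - 2))) := by
    refine (mass t ht).trans (le_trans (le_of_eq ?_) (h1.trans (le_of_eq ?_)))
    · congr 1
      ext x
      rw [ENNReal.rpow_ofNat]
    · congr 3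
      ring
  have h4 : (1 : ℝ≥0∞) ≤ I * ENNReal.ofReal (8 * t) ^ ((q - 2) / 2) := by
    have h5 := ENNReal.rpow_le_rpow h3 (by positivity : 0 ≤ q / 2)
    rw [ENNReal.one_rpow, ENNReal.mul_rpow_of_nonneg _ _ (by positivity), ← ENNReal.rpow_mul,
      ← ENNReal.rpow_mul, one_div_mul_cancel (by positivity), ENNReal.rpow_one] at h5
    refine h5.trans (le_of_eq ?_)
    congr 2
    have : q - 2 ≠ 0 := by linarith
    field_simp
  calc ENNReal.ofReal ((8 * t) ^ (-((q - 2) / 2))) =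
        ENNReal.ofReal ((8 * t) ^ (-((q - 2) / 2))) * 1 := (mul_one _).symm
    _ ≤ ENNReal.ofReal ((8 * t) ^ (-((q - 2) / 2))) *
        (I * ENNReal.ofReal (8 * t) ^ ((q - 2) / 2)) := by gcongr
    _ = I * (ENNReal.ofReal ((8 * t) ^ (-((q - 2) / 2))) *
        ENNReal.ofReal ((8 * t) ^ ((q - 2) / 2))) := by
        rw [ENNReal.ofReal_rpow_of_pos h8]
        ring
    _ = I := by
        rw [← ENNReal.ofReal_mul (by positivity), ← Real.rpow_add h8, neg_add_cancel,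
          Real.rpow_zero, ENNReal.ofReal_one, mul_one]
    _ ≤ _ := setLIntegral_le_lintegral _ _

/-- the symmetry in time -/
lemma E1_neg (x t : ℝ) : ‖E1 one1 x (-t)‖ₑ = ‖E1 one1 (-x) t‖ₑ := by
  have h1 : E1 one1 x (-t) = (starRingEnd ℂ) (E1 one1 (-x) t) := by
    unfold E1
    rw [← integral_conj]
    congr 1
    ext u
    simp only [one1, smul_eq_mul, mul_one]
    unfold ch
    rw [← Complex.exp_conj]
    congr 1
    simp only [map_mul, Complex.conj_ofReal, Complex.conj_I, map_ofNat]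
    push_cast
    ring
  rw [h1, ← ofReal_norm, ← ofReal_norm, RCLike.norm_conj]

lemma low1' (q : ℝ) (hq : 2 < q) (t : ℝ) (ht : 1 ≤ |t|) :
    ENNReal.ofReal ((8 * |t|) ^ (-((q - 2) / 2))) ≤ ∫⁻ x : ℝ, ‖E1 one1 x t‖ₑ ^ q := by
  rcases le_total 0 t with h | h
  · rw [abs_of_nonneg h] at ht ⊢
    exact low1 q hq t ht
  · rw [abs_of_nonpos h] at ht ⊢
    refine (low1 q hq (-t) ht).trans (le_of_eq ?_)
    have h1 : ∀ x : ℝ, ‖E1 one1 x (-t)‖ₑ ^ q = (fun x : ℝ => ‖E1 one1 x t‖ₑ ^ q) (-x) := by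
      intro x
      simp only
      rw [E1_neg]
    simp only [h1]
    exact lintegral_neg_eq_self (fun x : ℝ => ‖E1 one1 x t‖ₑ ^ q)

/-- the indicator function of the cube -/
noncomputable def bx (k : ℕ) : (Fin k → ℝ) → ℂ := (BA 1 k).indicator fun _ => 1

lemma bx_Bf (k : ℕ) : Bf (bx k) 1 1 := by
  refine ⟨measurable_const.indicator measurableSet_Icc, fun v => ?_, fun v hv => ?_⟩
  · unfold bx
    by_cases hv : v ∈ BA 1 k
    · rw [indicator_of_mem hv, norm_one]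
    · rw [indicator_of_notMem hv, norm_zero]
      exact zero_le_one
  · exact indicator_of_notMem hv _

lemma X_bx (t : ℝ) (y : Fin k → ℝ) : X (bx k) t y = ∏ i, E1 one1 (y i) t := by
  have h1 : X (bx k) t y = ∫ v : Fin k → ℝ, ∏ i, ((Icc (-1 : ℝ) 1).indicator
      (fun s => ch (s * y i + s ^ 2 * t)) (v i)) := by
    unfold X
    congr 1
    ext v
    by_cases hv : v ∈ BA 1 k
    · unfold bx
      rw [indicator_of_mem hv, one_mul]
      unfold Pool.Agent.Q89.SM.em Pool.Agent.W771.MD.em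
      apply Finset.prod_congr rfl
      intro i _
      have hi : v i ∈ Icc (-1 : ℝ) 1 := ⟨hv.1 i, hv.2 i⟩
      rw [indicator_of_mem hi]
      rfl
    · unfold bx
      rw [indicator_of_notMem hv, zero_mul]
      symm
      have : ∃ i, v i ∉ Icc (-1 : ℝ) 1 := by
        by_contra hc
        push Not at hc
        exact hv ⟨fun i => (hc i).1, fun i => (hc i).2⟩
      obtain ⟨i, hi⟩ := this
      exact Finset.prod_eq_zero (Finset.mem_univ i) (indicator_of_notMem hi _)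
  rw [h1, integral_fintype_prod_volume_eq_prod
    (fun i => (Icc (-1 : ℝ) 1).indicator (fun s => ch (s * y i + s ^ 2 * t)))]
  apply Finset.prod_congr rfl
  intro i _
  rw [integral_indicator measurableSet_Icc]
  unfold E1
  congr 1
  ext s
  simp only [one1, smul_eq_mul, mul_one]

/-- the lower bound for the indicator function of the cube -/
lemma low_bx (q : ℝ) (hq : 2 < q) (t : ℝ) (ht : 1 ≤ |t|) :
    ENNReal.ofReal ((8 * |t|) ^ (-(k * (q - 2) / 2))) ≤ ∫⁻ y : Fin k → ℝ, ‖X (bx k) t y‖ₑ ^ q := by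
  have hq0 : 0 < q := by linarith
  have h1 : ∀ y : Fin k → ℝ, ‖X (bx k) t y‖ₑ ^ q =
      ∏ i, (fun x : ℝ => ‖E1 one1 x t‖ₑ ^ q) (y i) := by
    intro y
    rw [X_bx, enorm_prd, ENNReal.prod_rpow_of_nonneg hq0.le]
  simp only [h1]
  have h2 := lint_prod k (fun _ : Fin k => fun x : ℝ => ‖E1 one1 x t‖ₑ ^ q)
    (fun _ => (E1t_meas one1_adm t).enorm.pow_const q)
  rw [h2, Finset.prod_const, Finset.card_univ, Fintype.card_fin]
  calc ENNReal.ofReal ((8 * |t|) ^ (-(k * (q - 2) / 2))) =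
      (ENNReal.ofReal ((8 * |t|) ^ (-((q - 2) / 2)))) ^ k := by
        rw [← ENNReal.ofReal_pow (by positivity), ← Real.rpow_natCast, ← Real.rpow_mul
          (by positivity)]
        congr 2
        ring
    _ ≤ _ := pow_le_pow_left' (low1' q hq t ht) k

/-- the tensor product with the indicator function of the cube -/
noncomputable def tn (e : Fin m ⊕ Fin k ≃ Fin n) (g : (Fin m → ℝ) → ℂ) (ξ : Fin n → ℝ) : ℂ :=
  g (fun i => ξ (e (Sum.inl i))) * bx k fun i => ξ (e (Sum.inr i))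

lemma tn_gs (e : Fin m ⊕ Fin k ≃ Fin n) (g : (Fin m → ℝ) → ℂ) (u : Fin m → ℝ) (v : Fin k → ℝ) :
    tn e g (gs e (u, v)) = g u * bx k v := by
  unfold tn
  simp only [gs_inl, gs_inr]

lemma tn_Bf (e : Fin m ⊕ Fin k ≃ Fin n) {g : (Fin m → ℝ) → ℂ} (H : Bf g 1 1) :
    Bf (tn e g) 1 1 := by
  have hb := bx_Bf k
  refine ⟨?_, fun ξ => ?_, fun ξ hξ => ?_⟩
  · apply Measurable.mul
    · exact H.ms.comp (by fun_prop)
    · exact hb.ms.comp (by fun_prop)
  · unfold tn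
    rw [norm_mul]
    calc _ ≤ (1 : ℝ) * 1 := by
          gcongr
          · exact H.bd _
          · exact hb.bd _
      _ = 1 := one_mul 1
  · rw [← gs_fst e ξ, gs_BA] at hξ
    rw [← gs_fst e ξ, tn_gs]
    by_cases h1 : (fun i => ξ (e (Sum.inl i))) ∈ BA 1 m
    · rw [hb.st _ (fun h2 => hξ ⟨h1, h2⟩), mul_zero]
    · rw [H.st _ h1, zero_mul]

lemma X_tn (e : Fin m ⊕ Fin k ≃ Fin n) {g : (Fin m → ℝ) → ℂ} (H : Bf g 1 1) (t : ℝ)
    (x : Fin m → ℝ) (y : Fin k → ℝ) :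
    X (tn e g) t (gs e (x, y)) = X g t x * X (bx k) t y := by
  rw [X_gs e (tn_Bf e H)]
  have h1 : ∀ u : Fin m → ℝ, X (sr e (tn e g) u) t y = g u * X (bx k) t y := by
    intro u
    unfold X
    rw [← integral_const_mul]
    congr 1
    ext v
    unfold sr
    rw [tn_gs, mul_assoc]
  simp only [h1]
  unfold X
  rw [← integral_mul_const]
  congr 1
  ext u
  ring

lemma X_meas_t (g : (Fin n → ℝ) → ℂ) (hg : Measurable g) (q t : ℝ) :
    Measurable fun y : Fin n → ℝ => ‖X g t y‖ₑ ^ q := by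
  have h1 : Measurable fun y : Fin n → ℝ => ((t, y) : ℝ × (Fin n → ℝ)) := by fun_prop
  have h2 := ((X_meas g hg).comp h1).enorm.pow_const q
  simp only [Function.comp_def] at h2
  exact h2

lemma tn_fix (e : Fin m ⊕ Fin k ≃ Fin n) {g : (Fin m → ℝ) → ℂ} (H : Bf g 1 1) (q : ℝ)
    (hq0 : 0 < q) (t : ℝ) : ∫⁻ y, ‖X (tn e g) t y‖ₑ ^ q =
      (∫⁻ x, ‖X g t x‖ₑ ^ q) * ∫⁻ y : Fin k → ℝ, ‖X (bx k) t y‖ₑ ^ q := by
  have h0 := X_meas_t (tn e g) (tn_Bf e H).ms q t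
  have h1 := X_meas_t g H.ms q t
  have h2 := X_meas_t (bx k) (bx_Bf k).ms q t
  rw [← (gs_mp e).lintegral_comp h0, Measure.volume_eq_prod,
    ← lintegral_prod_mul h1.aemeasurable h2.aemeasurable]
  congr 1
  ext p
  have h3 : gs e p = gs e (p.1, p.2) := rfl
  rw [h3, X_tn e H, enorm_mul, ENNReal.mul_rpow_of_nonneg _ _ hq0.le]

/-- **the converse** -/
theorem converse (m k n : ℕ) (q : ℝ) (hq : 2 < q) (C : ℝ≥0) : ∃ B : ℝ≥0,
    ∀ (e : Fin m ⊕ Fin k ≃ Fin n) (g : (Fin m → ℝ) → ℂ), Bf g 1 1 →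
      ∫⁻ t, ∫⁻ y, ‖X (tn e g) t y‖ₑ ^ q ≤ C → ∀ T : ℝ, 1 ≤ T →
      ∫⁻ t in {t : ℝ | |t| ≤ T}, ∫⁻ x, ‖X g t x‖ₑ ^ q ≤
        B * ENNReal.ofReal (T ^ (k * (q - 2) / 2)) := by
  have hq0 : 0 < q := by linarith
  set D₀ : ℝ≥0∞ := 2 * (ENNReal.ofReal (2 ^ m) ^ (q - 2) * ENNReal.ofReal (2 ^ m)) with hD₀
  have hD₀f : D₀ ≠ ∞ := by
    rw [hD₀]
    refine ENNReal.mul_ne_top (by norm_num) (ENNReal.mul_ne_top ?_ ENNReal.ofReal_ne_top)
    exact ENNReal.rpow_ne_top_of_nonneg (by linarith) ENNReal.ofReal_ne_top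
  set D₁ : ℝ≥0∞ := ENNReal.ofReal (8 ^ (k * (q - 2) / 2)) * C with hD₁
  have hD₁f : D₁ ≠ ∞ := ENNReal.mul_ne_top ENNReal.ofReal_ne_top ENNReal.coe_ne_top
  have hfin : D₀ + D₁ ≠ ∞ := ENNReal.add_ne_top.mpr ⟨hD₀f, hD₁f⟩
  refine ⟨(D₀ + D₁).toNNReal, fun e g H hC T hT => ?_⟩
  rw [ENNReal.coe_toNNReal hfin]
  have hT0 : 0 < T := by linarith
  have hκ : 0 ≤ (k : ℝ) * (q - 2) / 2 := by
    have : 0 < q - 2 := by linarith
    positivity
  have hb1 : ∀ ξ, ‖g ξ‖ₑ ≤ (BA 1 m).indicator (fun _ => (1 : ℝ≥0∞)) ξ := by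
    intro ξ
    by_cases hξ : ξ ∈ BA 1 m
    · rw [indicator_of_mem hξ, ← ofReal_norm, ← ENNReal.ofReal_one]
      exact ENNReal.ofReal_le_ofReal (H.bd ξ)
    · rw [indicator_of_notMem hξ, H.st ξ hξ, enorm_zero]
  have hvol : ∫⁻ ξ : Fin m → ℝ, (BA 1 m).indicator (fun _ => (1 : ℝ≥0∞)) ξ =
      ENNReal.ofReal (2 ^ m) := by
    rw [lintegral_indicator measurableSet_Icc, setLIntegral_const, Real.volume_Icc_pi]
    simp only [sub_neg_eq_add, one_mul]
    norm_num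
  have hi1 : ∫⁻ ξ, ‖g ξ‖ₑ ≤ ENNReal.ofReal (2 ^ m) := by
    rw [← hvol]
    exact lintegral_mono hb1
  have hi2 : ∫⁻ ξ, ‖g ξ‖ₑ ^ 2 ≤ ENNReal.ofReal (2 ^ m) := by
    rw [← hvol]
    apply lintegral_mono
    intro ξ
    simp only
    refine (pow_le_pow_left' (hb1 ξ) 2).trans ?_
    by_cases hξ : ξ ∈ BA 1 m
    · rw [indicator_of_mem hξ]
      norm_num
    · rw [indicator_of_notMem hξ]
      norm_num
  have hsmall := smallT q hq.le g H.ms 1 H.st (ne_top_of_le_ne_top ENNReal.ofReal_ne_top hi2)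
  have hXn : Measurable fun z : ℝ × (Fin n → ℝ) => ‖X (tn e g) z.1 z.2‖ₑ ^ q :=
    (X_meas _ (tn_Bf e H).ms).enorm.pow_const q
  have hfix := tn_fix e H q hq0
  have hlarge : ∫⁻ t in {t : ℝ | 1 ≤ |t| ∧ |t| ≤ T}, ∫⁻ x, ‖X g t x‖ₑ ^ q ≤
      ENNReal.ofReal ((8 * T) ^ (k * (q - 2) / 2)) * C := by
    have hSm : MeasurableSet {t : ℝ | 1 ≤ |t| ∧ |t| ≤ T} :=
      (measurableSet_le measurable_const measurable_norm).inter
        (measurableSet_le measurable_norm measurable_const)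
    calc ∫⁻ t in {t : ℝ | 1 ≤ |t| ∧ |t| ≤ T}, ∫⁻ x, ‖X g t x‖ₑ ^ q ≤
        ∫⁻ t in {t : ℝ | 1 ≤ |t| ∧ |t| ≤ T},
          ENNReal.ofReal ((8 * T) ^ (k * (q - 2) / 2)) * ∫⁻ y, ‖X (tn e g) t y‖ₑ ^ q := by
          apply setLIntegral_mono' hSm
          intro t ht
          rw [hfix t]
          have h1 := low_bx (k := k) q hq t ht.1
          have ht0 : 0 < |t| := by linarith [ht.1]
          calc ∫⁻ x, ‖X g t x‖ₑ ^ q = (ENNReal.ofReal ((8 * T) ^ (k * (q - 2) / 2)) *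
                ENNReal.ofReal ((8 * T) ^ (-(k * (q - 2) / 2)))) * ∫⁻ x, ‖X g t x‖ₑ ^ q := by
                rw [← ENNReal.ofReal_mul (by positivity), ← Real.rpow_add (by positivity),
                  add_neg_cancel, Real.rpow_zero, ENNReal.ofReal_one, one_mul]
            _ ≤ (ENNReal.ofReal ((8 * T) ^ (k * (q - 2) / 2)) *
                ENNReal.ofReal ((8 * |t|) ^ (-(k * (q - 2) / 2)))) *
                  ∫⁻ x, ‖X g t x‖ₑ ^ q := by
                gcongr ?_ * ?_ * _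
                · exact le_rfl
                · apply ENNReal.ofReal_le_ofReal
                  apply Real.rpow_le_rpow_of_nonpos (by positivity)
                  · have := ht.2
                    linarith
                  · linarith
            _ ≤ (ENNReal.ofReal ((8 * T) ^ (k * (q - 2) / 2)) *
                ∫⁻ y : Fin k → ℝ, ‖X (bx k) t y‖ₑ ^ q) * ∫⁻ x, ‖X g t x‖ₑ ^ q := by
                gcongr
            _ = _ := by ring
      _ ≤ ∫⁻ t, ENNReal.ofReal ((8 * T) ^ (k * (q - 2) / 2)) * ∫⁻ y, ‖X (tn e g) t y‖ₑ ^ q :=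
          setLIntegral_le_lintegral _ _
      _ = ENNReal.ofReal ((8 * T) ^ (k * (q - 2) / 2)) *
          ∫⁻ t, ∫⁻ y, ‖X (tn e g) t y‖ₑ ^ q := by
          rw [lintegral_const_mul _ hXn.lintegral_prod_right']
      _ ≤ _ := by gcongr
  have hcov : {t : ℝ | |t| ≤ T} ⊆ {t : ℝ | |t| < 1} ∪ {t : ℝ | 1 ≤ |t| ∧ |t| ≤ T} := by
    intro t ht
    by_cases h : |t| < 1
    · exact Or.inl h
    · exact Or.inr ⟨not_lt.mp h, ht⟩
  have hTκ : 1 ≤ T ^ ((k : ℝ) * (q - 2) / 2) := Real.one_le_rpow hT hκ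
  calc ∫⁻ t in {t : ℝ | |t| ≤ T}, ∫⁻ x, ‖X g t x‖ₑ ^ q ≤
      (∫⁻ t in {t : ℝ | |t| < 1}, ∫⁻ x, ‖X g t x‖ₑ ^ q) +
        ∫⁻ t in {t : ℝ | 1 ≤ |t| ∧ |t| ≤ T}, ∫⁻ x, ‖X g t x‖ₑ ^ q :=
        (lintegral_mono_set hcov).trans (lintegral_union_le _ _ _)
    _ ≤ D₀ + ENNReal.ofReal ((8 * T) ^ (k * (q - 2) / 2)) * C := by
        gcongr
        refine hsmall.trans ?_
        rw [hD₀]
        gcongr
    _ ≤ D₀ * ENNReal.ofReal (T ^ (k * (q - 2) / 2)) +
        D₁ * ENNReal.ofReal (T ^ (k * (q - 2) / 2)) := by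
        apply add_le_add
        · calc D₀ = D₀ * 1 := (mul_one _).symm
            _ ≤ _ := by
              gcongr
              rw [← ENNReal.ofReal_one]
              exact ENNReal.ofReal_le_ofReal hTκ
        · rw [hD₁, Real.mul_rpow (by norm_num) hT0.le, ENNReal.ofReal_mul (by positivity)]
          apply le_of_eq
          ring
    _ = _ := by ring

end Pool.Agent.Helper25.PV
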