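import Mathlib
import Pool.Agent.Helper25.PV.D
set_option autoImplicit false

/-! Local estimates from global estimates, and monotonicity in the exponent. -/

namespace Pool.Agent.Helper25.PV

open MeasureTheory Set Complex Filter Topology
open scoped ENNReal NNReal
open Pool.Agent.Y183.LS (BA ec ec_enorm ec_norm em_nrm em_enrm enorm_prd BA_fin lint_smul lint_prod)
open Pool.Agent.Q89.SM hiding em
open Pool.Agent.X146.RP (gs gs_inl gs_inr gs_mp sum_gs)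

variable {m k n : ℕ}

lemma Bf.vol1 {g : (Fin m → ℝ) → ℂ} (H : Bf g 1 1) : ∫⁻ ξ, ‖g ξ‖ₑ ≤ ENNReal.ofReal (2 ^ m) ∧
    ∫⁻ ξ, ‖g ξ‖ₑ ^ 2 ≤ ENNReal.ofReal (2 ^ m) := by
  have hb1 : ∀ ξ, ‖g ξ‖ₑ ≤ (BA 1 m).indicator (fun _ => (1 : ℝ≥0∞)) ξ := by
    intro ξ
    by_cases hξ : ξ ∈ BA 1 m
    · rw [indicator_of_mem hξ, ← ofReal_norm, ← ENNReal.ofReal_one]
      exact ENNReal.ofReal_le_ofReal (H.bd ξ)
    · rw [indicator_of_notMem hξ, H.st ξ hξ, enorm_zero]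
  have hvol : ∫⁻ ξ : Fin m → ℝ, (BA 1 m).indicator (fun _ => (1 : ℝ≥0∞)) ξ =
      ENNReal.ofReal (2 ^ m) := by
    rw [lintegral_indicator measurableSet_Icc, setLIntegral_const, Real.volume_Icc_pi]
    simp only [sub_neg_eq_add, one_mul]
    norm_num
  constructor
  · rw [← hvol]
    exact lintegral_mono hb1
  · rw [← hvol]
    apply lintegral_mono
    intro ξ
    simp only
    refine (pow_le_pow_left' (hb1 ξ) 2).trans ?_
    by_cases hξ : ξ ∈ BA 1 m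
    · rw [indicator_of_mem hξ]
      norm_num
    · rw [indicator_of_notMem hξ]
      norm_num

lemma Bf.sup {g : (Fin m → ℝ) → ℂ} (H : Bf g 1 1) (t : ℝ) (x : Fin m → ℝ) :
    ‖X g t x‖ₑ ≤ ENNReal.ofReal (2 ^ m) := (X_sup g t x).trans (Bf.vol1 H).1

/-- increasing the exponent, pointwise -/
lemma Bf.up {g : (Fin m → ℝ) → ℂ} (H : Bf g 1 1) (q q' : ℝ) (hq' : 0 < q') (hq : q' ≤ q) (t : ℝ)
    (x : Fin m → ℝ) : ‖X g t x‖ₑ ^ q ≤ ENNReal.ofReal (2 ^ m) ^ (q - q') * ‖X g t x‖ₑ ^ q' := by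
  calc ‖X g t x‖ₑ ^ q = ‖X g t x‖ₑ ^ (q - q' + q') := by rw [sub_add_cancel]
    _ = ‖X g t x‖ₑ ^ (q - q') * ‖X g t x‖ₑ ^ q' :=
        ENNReal.rpow_add_of_nonneg _ _ (by linarith) hq'.le
    _ ≤ _ := by
        gcongr
        exact Bf.sup H t x

lemma Bf.up_int {g : (Fin m → ℝ) → ℂ} (H : Bf g 1 1) (q q' : ℝ) (hq' : 0 < q') (hq : q' ≤ q)
    (J : Set ℝ) : ∫⁻ t in J, ∫⁻ x, ‖X g t x‖ₑ ^ q ≤
      ENNReal.ofReal (2 ^ m) ^ (q - q') * ∫⁻ t in J, ∫⁻ x, ‖X g t x‖ₑ ^ q' := by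
  have hf : ENNReal.ofReal (2 ^ m) ^ (q - q') ≠ ∞ :=
    ENNReal.rpow_ne_top_of_nonneg (by linarith) ENNReal.ofReal_ne_top
  rw [← lintegral_const_mul' _ _ hf]
  apply lintegral_mono
  intro t
  simp only
  rw [← lintegral_const_mul' _ _ hf]
  exact lintegral_mono fun x => Bf.up H q q' hq' hq t x

/-- local estimates from global estimates -/
theorem loc_of_glob (m : ℕ) (q p₀ : ℝ) (hq : 2 < q) (hqp : q < p₀) (B₀ : ℝ≥0) : ∃ B : ℝ≥0,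
    ∀ g : (Fin m → ℝ) → ℂ, Bf g 1 1 → ∫⁻ t, ∫⁻ x, ‖X g t x‖ₑ ^ p₀ ≤ B₀ → ∀ T : ℝ, 1 ≤ T →
      ∫⁻ t in {t : ℝ | |t| ≤ T}, ∫⁻ x, ‖X g t x‖ₑ ^ q ≤
        B * ENNReal.ofReal (T ^ ((p₀ - q) / (p₀ - 2))) := by
  set θ : ℝ := (p₀ - q) / (p₀ - 2) with hθ
  have hp : 0 < p₀ - 2 := by linarith
  have hθ0 : 0 < θ := div_pos (by linarith) hp
  have hθ1 : θ < 1 := by
    rw [hθ, div_lt_one hp]
    linarith
  have hD : ENNReal.ofReal (2 * 2 ^ m) ^ θ * (B₀ : ℝ≥0∞) ^ (1 - θ) ≠ ∞ :=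
    ENNReal.mul_ne_top (ENNReal.rpow_ne_top_of_nonneg hθ0.le ENNReal.ofReal_ne_top)
      (ENNReal.rpow_ne_top_of_nonneg (by linarith) ENNReal.coe_ne_top)
  refine ⟨(ENNReal.ofReal (2 * 2 ^ m) ^ θ * (B₀ : ℝ≥0∞) ^ (1 - θ)).toNNReal,
    fun g H hg T hT => ?_⟩
  rw [ENNReal.coe_toNNReal hD]
  have hT0 : 0 < T := by linarith
  set J : Set ℝ := {t : ℝ | |t| ≤ T} with hJ
  have hJm : MeasurableSet J := measurableSet_le measurable_norm measurable_const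
  have hJv : volume J = ENNReal.ofReal (2 * T) := by
    have h1 : J = Icc (-T) T := by
      ext t
      simp only [hJ, mem_ofPred_eq, mem_Icc, abs_le]
    rw [h1, Real.volume_Icc]
    congr 1
    ring
  have hXm : Measurable fun z : ℝ × (Fin m → ℝ) => ‖X g z.1 z.2‖ₑ := (X_meas g H.ms).enorm
  set μ : Measure (ℝ × (Fin m → ℝ)) := (volume.restrict J).prod volume with hμ
  have hprod : ∀ s : ℝ, ∫⁻ z, ‖X g z.1 z.2‖ₑ ^ s ∂μ = ∫⁻ t in J, ∫⁻ x, ‖X g t x‖ₑ ^ s := by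
    intro s
    rw [hμ, lintegral_prod _ (hXm.pow_const s).aemeasurable]
  have h1 : ∀ z : ℝ × (Fin m → ℝ), ‖X g z.1 z.2‖ₑ ^ q =
      (‖X g z.1 z.2‖ₑ ^ (2 : ℝ)) ^ θ * (‖X g z.1 z.2‖ₑ ^ p₀) ^ (1 - θ) := by
    intro z
    rw [← ENNReal.rpow_mul, ← ENNReal.rpow_mul,
      ← ENNReal.rpow_add_of_nonneg _ _ (by positivity) (by
        apply mul_nonneg <;> linarith)]
    congr 1
    rw [hθ]
    field_simp
    ring
  have h2 : ∫⁻ t in J, ∫⁻ x, ‖X g t x‖ₑ ^ q ≤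
      (∫⁻ t in J, ∫⁻ x, ‖X g t x‖ₑ ^ (2 : ℝ)) ^ θ *
        (∫⁻ t in J, ∫⁻ x, ‖X g t x‖ₑ ^ p₀) ^ (1 - θ) := by
    rw [← hprod q, ← hprod 2, ← hprod p₀]
    simp only [h1]
    exact ENNReal.lintegral_mul_norm_pow_le (hXm.pow_const 2).aemeasurable
      (hXm.pow_const p₀).aemeasurable hθ0.le (by linarith) (by ring)
  have h3 : ∫⁻ t in J, ∫⁻ x, ‖X g t x‖ₑ ^ (2 : ℝ) ≤ ENNReal.ofReal (2 * 2 ^ m * T) := by
    have hv := Bf.vol1 H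
    calc ∫⁻ t in J, ∫⁻ x, ‖X g t x‖ₑ ^ (2 : ℝ) = ∫⁻ t in J, ∫⁻ v, ‖g v‖ₑ ^ 2 := by
          apply lintegral_congr
          intro t
          rw [← X_planch g H.ms 1 H.st (ne_top_of_le_ne_top ENNReal.ofReal_ne_top hv.2) t]
          simp only [ENNReal.rpow_ofNat]
      _ ≤ ∫⁻ t in J, ENNReal.ofReal (2 ^ m) := lintegral_mono fun _ => hv.2
      _ = _ := by
          rw [setLIntegral_const, hJv, ← ENNReal.ofReal_mul (by positivity)]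
          congr 1
          ring
  calc ∫⁻ t in J, ∫⁻ x, ‖X g t x‖ₑ ^ q ≤
      (ENNReal.ofReal (2 * 2 ^ m * T)) ^ θ * (B₀ : ℝ≥0∞) ^ (1 - θ) := by
        refine h2.trans ?_
        gcongr
        exact (setLIntegral_le_lintegral _ _).trans hg
    _ = _ := by
        rw [ENNReal.ofReal_mul (by positivity), ENNReal.mul_rpow_of_nonneg _ _ hθ0.le,
          ENNReal.ofReal_rpow_of_pos hT0]
        ring

end Pool.Agent.Helper25.PV
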