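import Mathlib
import Pool.Agent.Helper25.PV.E
set_option autoImplicit false

/-! Restriction to the cube: the boundary of the cube is harmless. -/

namespace Pool.Agent.Helper25.PV

open MeasureTheory Set Complex Filter Topology
open scoped ENNReal NNReal
open Pool.Agent.Y183.LS (BA ec ec_enorm ec_norm em_nrm em_enrm enorm_prd BA_fin lint_smul lint_prod)
open Pool.Agent.Q89.SM hiding em
open Pool.Agent.X146.RP (gs gs_inl gs_inr gs_mp sum_gs)

variable {m k n : ℕ}

/-- the part of the cube which leaves the cube under a translation -/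
def ed (k : ℕ) (w : Fin k → ℝ) : Set (Fin k → ℝ) := {v | v ∈ BA 1 k ∧ v + w ∉ BA 1 k}

lemma edge (k : ℕ) (w : Fin k → ℝ) :
    volume (ed k w) ≤ k * 2 ^ k * ENNReal.ofReal ‖w‖ := by
  classical
  set S : Set ℝ := Icc (1 - ‖w‖) 1 ∪ Icc (-1) (-1 + ‖w‖) with hS
  have hSv : volume S ≤ 2 * ENNReal.ofReal ‖w‖ := by
    refine (measure_union_le _ _).trans ?_
    rw [Real.volume_Icc, Real.volume_Icc, two_mul]
    apply add_le_add <;>
    · apply ENNReal.ofReal_le_ofReal
      linarith
  have hsub : ed k w ⊆ ⋃ i : Fin k, Set.pi univ fun j => if j = i then S else Icc (-1 : ℝ) 1 := by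
    rintro v ⟨hv, hvw⟩
    have h1 : ∃ i, v i + w i < -1 ∨ 1 < v i + w i := by
      by_contra hc
      push Not at hc
      exact hvw ⟨fun i => (hc i).1, fun i => (hc i).2⟩
    obtain ⟨i, hi⟩ := h1
    have hwi : |w i| ≤ ‖w‖ := norm_le_pi_norm w i
    have hwi' := abs_le.1 hwi
    refine mem_iUnion.2 ⟨i, fun j _ => ?_⟩
    by_cases hj : j = i
    · subst hj
      simp only [if_true]
      have ha := hv.1 j
      have hb := hv.2 j
      rcases hi with hi | hi
      · right
        constructor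
        · linarith
        · linarith
      · left
        constructor
        · linarith
        · linarith
    · simp only [if_neg hj]
      exact ⟨hv.1 j, hv.2 j⟩
  refine (measure_mono hsub).trans ((measure_iUnion_le _).trans ?_)
  rw [tsum_fintype]
  have h2 : ∀ i : Fin k, volume (Set.pi univ fun j => if j = i then S else Icc (-1 : ℝ) 1) ≤
      2 ^ k * ENNReal.ofReal ‖w‖ := by
    intro i
    rw [volume_pi_pi, ← Finset.mul_prod_erase Finset.univ _ (Finset.mem_univ i)]
    simp only [if_true]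
    have h3 : ∏ j ∈ Finset.univ.erase i, volume (if j = i then S else Icc (-1 : ℝ) 1) =
        2 ^ (k - 1) := by
      rw [Finset.prod_congr rfl (g := fun _ => (2 : ℝ≥0∞)), Finset.prod_const,
        Finset.card_erase_of_mem (Finset.mem_univ i), Finset.card_univ, Fintype.card_fin]
      intro j hj
      rw [if_neg (Finset.ne_of_mem_erase hj), Real.volume_Icc]
      norm_num
    rw [h3]
    calc volume S * 2 ^ (k - 1) ≤ (2 * ENNReal.ofReal ‖w‖) * 2 ^ (k - 1) := by gcongr
      _ = 2 ^ (k - 1 + 1) * ENNReal.ofReal ‖w‖ := by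
          rw [pow_succ]
          ring
      _ = _ := by
          have : 0 < k := i.pos
          rw [Nat.sub_add_cancel this]
  calc ∑ i : Fin k, volume (Set.pi univ fun j => if j = i then S else Icc (-1 : ℝ) 1) ≤
      ∑ i : Fin k, 2 ^ k * ENNReal.ofReal ‖w‖ := Finset.sum_le_sum fun i _ => h2 i
    _ = _ := by
        rw [Finset.sum_const, Finset.card_univ, Fintype.card_fin, nsmul_eq_mul]
        ring

lemma ed_meas (k : ℕ) (w : Fin k → ℝ) : MeasurableSet (ed k w) :=
  measurableSet_Icc.inter ((measurableSet_Icc.preimage (measurable_id.add_const w)).compl)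

lemma edge' (k : ℕ) (w : Fin k → ℝ) :
    volume {v : Fin k → ℝ | v ∉ BA 1 k ∧ v + w ∈ BA 1 k} ≤ k * 2 ^ k * ENNReal.ofReal ‖w‖ := by
  have h1 : {v : Fin k → ℝ | v ∉ BA 1 k ∧ v + w ∈ BA 1 k} = (fun v => v + w) ⁻¹' (ed k (-w)) := by
    ext v
    simp only [ed, mem_preimage, mem_ofPred_eq, add_neg_cancel_right]
    tauto
  rw [h1, measure_preimage_add_right, ← norm_neg w]
  exact edge k (-w)

/-- the regularity of the function extended by zero -/
lemma reg_ext (e : Fin m ⊕ Fin k ≃ Fin n) (f : (Fin n → ℝ) → ℂ) (A : ℝ≥0) (σ σ' : ℝ)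
    (hf : Measurable f) (hb : ∀ ξ ∈ BA 1 n, ‖f ξ‖ ≤ 1) (hσσ : σ' ≤ σ) (hσ : 2 * σ' ≤ 1)
    (H : ∀ w : Fin k → ℝ, ‖w‖ ≤ 1 →
      ∫⁻ u in BA 1 m, ∫⁻ v in {v | v ∈ BA 1 k ∧ v + w ∈ BA 1 k},
        ‖f (gs e (u, v + w)) - f (gs e (u, v))‖ₑ ^ 2 ≤ A * ENNReal.ofReal (‖w‖ ^ (2 * σ)))
    (w : Fin k → ℝ) (hw : ‖w‖ ≤ 1) :
    ∫⁻ ξ, ‖(BA 1 n).indicator f (ξ + gs e (0, w)) - (BA 1 n).indicator f ξ‖ₑ ^ 2 ≤
      (A + ((2 * k * 2 ^ k * 2 ^ m : ℝ≥0) : ℝ≥0∞)) * ENNReal.ofReal (‖w‖ ^ (2 * σ')) := by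
  classical
  rcases eq_or_ne w 0 with hw0 | hw0
  · have h0 : gs e ((0 : Fin m → ℝ), (0 : Fin k → ℝ)) = 0 := by
      apply ext_gs e
      · intro i
        rw [gs_inl]
        rfl
      · intro i
        rw [gs_inr]
        rfl
    rw [hw0, h0]
    simp
  have hwp : 0 < ‖w‖ := norm_pos_iff.2 hw0
  set F := (BA 1 n).indicator f with hF
  have hFm : Measurable F := hf.indicator measurableSet_Icc
  have e1 : ∫⁻ ξ, ‖F (ξ + gs e (0, w)) - F ξ‖ₑ ^ 2 =
      ∫⁻ u : Fin m → ℝ, ∫⁻ v : Fin k → ℝ, ‖F (gs e (u, v + w)) - F (gs e (u, v))‖ₑ ^ 2 := by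
    rw [← (gs_mp e).lintegral_comp_emb (gs e).measurableEmbedding, Measure.volume_eq_prod,
      lintegral_prod]
    · apply lintegral_congr
      intro u
      apply lintegral_congr
      intro v
      rw [← gs_add, Prod.mk_add_mk, add_zero]
    · refine Measurable.aemeasurable ?_
      exact (((hFm.comp (measurable_id.add_const _)).sub hFm).enorm.pow_const 2).comp
        (gs e).measurable
  have hFg : ∀ (u : Fin m → ℝ) (v : Fin k → ℝ), F (gs e (u, v)) =
      if u ∈ BA 1 m ∧ v ∈ BA 1 k then f (gs e (u, v)) else 0 := by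
    intro u v
    by_cases h : u ∈ BA 1 m ∧ v ∈ BA 1 k
    · rw [if_pos h, hF, indicator_of_mem ((gs_BA e 1 (u, v)).2 h)]
    · rw [if_neg h, hF, indicator_of_notMem fun h' => h ((gs_BA e 1 (u, v)).1 h')]
  set S : Set (Fin k → ℝ) := {v | v ∈ BA 1 k ∧ v + w ∈ BA 1 k} with hS
  have hSm : MeasurableSet S := measurableSet_Icc.inter
    (measurableSet_Icc.preimage (measurable_id.add_const w))
  set E2 : Set (Fin k → ℝ) := {v | v ∉ BA 1 k ∧ v + w ∈ BA 1 k} with hE2
  have hE2m : MeasurableSet E2 := measurableSet_Icc.compl.inter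
    (measurableSet_Icc.preimage (measurable_id.add_const w))
  have hb' : ∀ u ∈ BA 1 m, ∀ v ∈ BA 1 k, ‖f (gs e (u, v))‖ₑ ≤ 1 := by
    intro u hu v hv
    rw [← ofReal_norm, ← ENNReal.ofReal_one]
    exact ENNReal.ofReal_le_ofReal (hb _ ((gs_BA e 1 (u, v)).2 ⟨hu, hv⟩))
  -- the inner integral
  have h1 : ∀ u : Fin m → ℝ, ∫⁻ v : Fin k → ℝ, ‖F (gs e (u, v + w)) - F (gs e (u, v))‖ₑ ^ 2 ≤
      (BA 1 m).indicator (fun u => (∫⁻ v in S, ‖f (gs e (u, v + w)) - f (gs e (u, v))‖ₑ ^ 2) +
        2 * (k * 2 ^ k * ENNReal.ofReal ‖w‖)) u := by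
    intro u
    by_cases hu : u ∈ BA 1 m
    · rw [indicator_of_mem hu]
      calc ∫⁻ v : Fin k → ℝ, ‖F (gs e (u, v + w)) - F (gs e (u, v))‖ₑ ^ 2 ≤
          ∫⁻ v : Fin k → ℝ, (S.indicator (fun v => ‖f (gs e (u, v + w)) - f (gs e (u, v))‖ₑ ^ 2) v
            + (ed k w).indicator (fun _ => 1) v) + E2.indicator (fun _ => 1) v := by
            apply lintegral_mono
            intro v
            simp only [hFg]
            by_cases hv : v ∈ BA 1 k <;> by_cases hv' : v + w ∈ BA 1 k
            · rw [if_pos ⟨hu, hv'⟩, if_pos ⟨hu, hv⟩, indicator_of_mem (show v ∈ S from ⟨hv, hv'⟩)]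
              exact le_self_add.trans le_self_add
            · rw [if_neg (fun h => hv' h.2), if_pos ⟨hu, hv⟩,
                indicator_of_mem (show v ∈ ed k w from ⟨hv, hv'⟩), zero_sub, enorm_neg]
              refine le_trans ?_ le_self_add
              refine le_trans ?_ le_add_self
              exact (pow_le_pow_left' (hb' u hu v hv) 2).trans (by norm_num)
            · rw [if_pos ⟨hu, hv'⟩, if_neg (fun h => hv h.2),
                indicator_of_mem (show v ∈ E2 from ⟨hv, hv'⟩), sub_zero]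
              refine le_trans ?_ le_add_self
              exact (pow_le_pow_left' (hb' u hu _ hv') 2).trans (by norm_num)
            · rw [if_neg (fun h => hv' h.2), if_neg (fun h => hv h.2), sub_self, enorm_zero]
              simp
        _ = (∫⁻ v in S, ‖f (gs e (u, v + w)) - f (gs e (u, v))‖ₑ ^ 2) + volume (ed k w) +
              volume E2 := by
            rw [lintegral_add_right _ (measurable_const.indicator hE2m),
              lintegral_add_right _ (measurable_const.indicator (ed_meas k w)),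
              lintegral_indicator hSm, lintegral_indicator (ed_meas k w),
              lintegral_indicator hE2m, setLIntegral_one, setLIntegral_one]
        _ ≤ _ := by
            rw [two_mul, add_assoc]
            exact add_le_add le_rfl (add_le_add (edge k w) (edge' k w))
    · rw [indicator_of_notMem hu]
      refine le_of_eq ?_
      rw [lintegral_eq_zero_of_ae_eq_zero]
      filter_upwards with v
      simp only [hFg]
      rw [if_neg (fun h => hu h.1), if_neg (fun h => hu h.1)]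
      simp
  have hBA : volume (BA 1 m) = 2 ^ m := by
    rw [Real.volume_Icc_pi]
    simp only [sub_neg_eq_add, Finset.prod_const, Finset.card_univ, Fintype.card_fin]
    norm_num
  have hpow : ∀ s s' : ℝ, s' ≤ s → ENNReal.ofReal (‖w‖ ^ s) ≤ ENNReal.ofReal (‖w‖ ^ s') := by
    intro s s' h
    exact ENNReal.ofReal_le_ofReal (Real.rpow_le_rpow_of_exponent_ge hwp hw h)
  rw [e1]
  calc ∫⁻ u : Fin m → ℝ, ∫⁻ v : Fin k → ℝ, ‖F (gs e (u, v + w)) - F (gs e (u, v))‖ₑ ^ 2 ≤
      ∫⁻ u in BA 1 m, ((∫⁻ v in S, ‖f (gs e (u, v + w)) - f (gs e (u, v))‖ₑ ^ 2) +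
        2 * (k * 2 ^ k * ENNReal.ofReal ‖w‖)) := by
        rw [← lintegral_indicator measurableSet_Icc]
        exact lintegral_mono h1
    _ = (∫⁻ u in BA 1 m, ∫⁻ v in S, ‖f (gs e (u, v + w)) - f (gs e (u, v))‖ₑ ^ 2) +
        2 * (k * 2 ^ k * ENNReal.ofReal ‖w‖) * 2 ^ m := by
        rw [lintegral_add_right _ measurable_const, setLIntegral_const, hBA]
    _ ≤ A * ENNReal.ofReal (‖w‖ ^ (2 * σ)) + 2 * (k * 2 ^ k * ENNReal.ofReal ‖w‖) * 2 ^ m :=
        add_le_add (H w hw) le_rfl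
    _ ≤ A * ENNReal.ofReal (‖w‖ ^ (2 * σ')) +
          2 * (k * 2 ^ k * ENNReal.ofReal (‖w‖ ^ (2 * σ'))) * 2 ^ m := by
        have h2 : ENNReal.ofReal ‖w‖ ≤ ENNReal.ofReal (‖w‖ ^ (2 * σ')) := by
          have := hpow 1 (2 * σ') hσ
          rwa [Real.rpow_one] at this
        have h3 := hpow (2 * σ) (2 * σ') (by linarith)
        gcongr
    _ = _ := by
        push_cast
        ring

end Pool.Agent.Helper25.PV
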